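import Pool.Agent.Y111.DI.Trans

/-!
# The Hodge numbers and the Hodge numbers of the layers
-/

namespace Pool.Agent.Y111.DI

open Module Finset Pool.Agent.TH125.Tw

section

variable {V W : Type*} [AddCommGroup V] [Module ℂ V] [FiniteDimensional ℂ V]
  [AddCommGroup W] [Module ℂ W]

omit [FiniteDimensional ℂ V] in
theorem finrank_comap (K T : Submodule ℂ V) :
    finrank ℂ (T.comap K.subtype) = finrank ℂ (K ⊓ T : Submodule ℂ V) := by
  rw [← Submodule.finrank_map_subtype_eq K (T.comap K.subtype), Submodule.map_comap_subtype]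

theorem finrank_map_add (f : V →ₗ[ℂ] W) (S : Submodule ℂ V) :
    finrank ℂ (S.map f) + finrank ℂ (S ⊓ LinearMap.ker f : Submodule ℂ V) = finrank ℂ S := by
  have h1 := LinearMap.finrank_range_add_finrank_ker (f.domRestrict S)
  rw [LinearMap.range_domRestrict, LinearMap.ker_domRestrict] at h1
  rw [← h1]
  congr 1
  exact (finrank_comap S (LinearMap.ker f)).symm

end

variable {n : ℕ} (X : Twisted n)

/-- The dimension of the space of the classes of type `(p, q)` killed by `c₁ ^ a`. -/
noncomputable def kd (a p q : ℕ) : ℕ := finrank ℂ (ker X a ⊓ X.piece p q : Submodule ℂ X.H)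

theorem ker_mono (a : ℕ) : ker X a ≤ ker X (a + 1) := by
  intro x hx
  have h1 : (X.chern ^ a) x = 0 := hx
  change (X.chern ^ (a + 1)) x = 0
  rw [pow_succ', Module.End.mul_apply, h1, map_zero]

theorem one_le_ker (a : ℕ) : ker X 1 ≤ ker X (a + 1) := by
  intro x hx
  have h1 : (X.chern ^ 1) x = 0 := hx
  change (X.chern ^ (a + 1)) x = 0
  rw [pow_succ, Module.End.mul_apply, ← pow_one X.chern, h1, map_zero]

theorem layerPiece_add (a p q : ℕ) :
    finrank ℂ (layerPiece X a p q) + finrank ℂ (X.piece p q ⊓ low X a : Submodule ℂ X.H) =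
      kd X (a + 1) p q := by
  have h1 := finrank_map_add (Submodule.mkQ (lowIn X a)) ((X.piece p q).comap (ker X (a + 1)).subtype)
  rw [Submodule.ker_mkQ, ← Submodule.comap_inf, finrank_comap, finrank_comap,
    inf_eq_right.2 (inf_le_right.trans (low_le X a) :
      X.piece p q ⊓ low X a ≤ ker X (a + 1))] at h1
  exact h1

theorem layerNumber_add (a p q : ℕ) :
    layerNumber X a p q + finrank ℂ (X.piece p q ⊓ low X a : Submodule ℂ X.H) =
      kd X (a + 1) p q := by
  have h1 := layerPiece_add X a p q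
  have h2 : layerNumber X a p q = kd X (a + 1) p q -
    finrank ℂ (low X a ⊓ X.piece p q : Submodule ℂ X.H) := rfl
  rw [h2, inf_comm (low X a)]
  omega

theorem layer_hodgeNumber {ε : ℤˣ} (hX : LayerRelations X ε) {a : ℕ} (ha : a ≤ n) (p q : ℕ) :
    (layer X hX ha).hodgeNumber p q = layerNumber X a p q := by
  have h1 := layerPiece_add X a p q
  have h2 := layerNumber_add X a p q
  have h3 : (layer X hX ha).hodgeNumber p q = finrank ℂ (layerPiece X a p q) := rfl
  omega

theorem finrank_chern (a p q : ℕ) :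
    finrank ℂ ((ker X (a + 1) ⊓ X.piece p q).map X.chern) + kd X 1 p q = kd X (a + 1) p q := by
  have h1 := finrank_map_add X.chern (ker X (a + 1) ⊓ X.piece p q)
  have h2 : LinearMap.ker X.chern = ker X 1 := by rw [ker, pow_one]
  have h3 : ker X (a + 1) ⊓ X.piece p q ⊓ LinearMap.ker X.chern = ker X 1 ⊓ X.piece p q := by
    rw [h2]
    refine le_antisymm ?_ ?_
    · exact le_inf inf_le_right (inf_le_left.trans inf_le_right)
    · exact le_inf (le_inf (inf_le_left.trans (one_le_ker X a)) inf_le_right) inf_le_left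
  rw [h3] at h1
  exact h1

theorem low_piece_zero {a p q : ℕ} (h : p = 0 ∨ q = 0) :
    X.piece p q ⊓ low X a = ker X a ⊓ X.piece p q := by
  refine le_antisymm ?_ ?_
  · rintro x ⟨hx, hx'⟩
    refine ⟨?_, hx⟩
    obtain ⟨y, hy, _, ⟨z, hz, rfl⟩, h1⟩ := Submodule.mem_sup.1 hx'
    have h2 : x = proj X p q y := by
      rw [← proj_same X hx, ← h1, map_add, proj_chern_zero X h, add_zero]
    rw [h2]
    exact proj_ker X hy
  · rintro x ⟨hx, hx'⟩
    exact ⟨hx', Submodule.mem_sup_left hx⟩

theorem low_piece_succ (a p q : ℕ) :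
    X.piece (p + 1) (q + 1) ⊓ low X a =
      (ker X a ⊓ X.piece (p + 1) (q + 1)) ⊔ (ker X (a + 2) ⊓ X.piece p q).map X.chern := by
  refine le_antisymm ?_ ?_
  · rintro x ⟨hx, hx'⟩
    obtain ⟨y, hy, _, ⟨z, hz, rfl⟩, h1⟩ := Submodule.mem_sup.1 hx'
    have h2 : x = proj X (p + 1) (q + 1) y + X.chern (proj X p q z) := by
      rw [← proj_chern, ← map_add, h1]
      exact (proj_same X hx).symm
    rw [h2]
    exact Submodule.add_mem _ (Submodule.mem_sup_left ⟨proj_ker X hy, proj_mem X _ _ _⟩)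
      (Submodule.mem_sup_right ⟨_, ⟨proj_ker X hz, proj_mem X _ _ _⟩, rfl⟩)
  · refine sup_le ?_ ?_
    · rintro x ⟨hx, hx'⟩
      exact ⟨hx', Submodule.mem_sup_left hx⟩
    · rintro _ ⟨z, ⟨hz, hz'⟩, rfl⟩
      exact ⟨X.chern_mem hz', Submodule.mem_sup_right ⟨z, hz, rfl⟩⟩

theorem ker_inf_map (a p q : ℕ) :
    (ker X a ⊓ X.piece (p + 1) (q + 1)) ⊓ (ker X (a + 2) ⊓ X.piece p q).map X.chern =
      (ker X (a + 1) ⊓ X.piece p q).map X.chern := by
  refine le_antisymm ?_ ?_
  · rintro _ ⟨⟨hx, _⟩, z, ⟨hz, hz'⟩, rfl⟩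
    refine ⟨z, ⟨?_, hz'⟩, rfl⟩
    have h1 : (X.chern ^ a) (X.chern z) = 0 := hx
    change (X.chern ^ (a + 1)) z = 0
    rw [pow_succ, Module.End.mul_apply]
    exact h1
  · rintro _ ⟨z, ⟨hz, hz'⟩, rfl⟩
    refine ⟨⟨?_, X.chern_mem hz'⟩, z, ⟨ker_mono X _ hz, hz'⟩, rfl⟩
    have h1 : (X.chern ^ (a + 1)) z = 0 := hz
    change (X.chern ^ a) (X.chern z) = 0
    rw [← Module.End.mul_apply, ← pow_succ]
    exact h1

theorem layerNumber_zero {a p q : ℕ} (h : p = 0 ∨ q = 0) :
    layerNumber X a p q + kd X a p q = kd X (a + 1) p q := by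
  rw [← layerNumber_add, low_piece_zero X h]
  rfl

theorem layerNumber_succ (a p q : ℕ) :
    layerNumber X a (p + 1) (q + 1) + kd X a (p + 1) (q + 1) + kd X (a + 2) p q =
      kd X (a + 1) (p + 1) (q + 1) + kd X (a + 1) p q := by
  have h1 := layerNumber_add X a (p + 1) (q + 1)
  rw [low_piece_succ] at h1
  have h2 := Submodule.finrank_sup_add_finrank_inf_eq (ker X a ⊓ X.piece (p + 1) (q + 1))
    ((ker X (a + 2) ⊓ X.piece p q).map X.chern)
  rw [ker_inf_map] at h2
  have h3 := finrank_chern X (a + 1) p q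
  have h4 := finrank_chern X a p q
  have h5 : kd X a (p + 1) (q + 1) =
    finrank ℂ (ker X a ⊓ X.piece (p + 1) (q + 1) : Submodule ℂ X.H) := rfl
  have h6 : a + 1 + 1 = a + 2 := rfl
  rw [h6] at h3
  omega

theorem kd_zero (p q : ℕ) : kd X 0 p q = 0 := by
  have h1 : ker X 0 = ⊥ := by
    rw [ker, pow_zero]
    exact LinearMap.ker_id
  rw [kd, h1, bot_inf_eq]
  exact finrank_bot ℂ X.H

theorem kd_large (p q : ℕ) : kd X (n + 1) p q = X.hodgeNumber p q := by
  have h1 : ker X (n + 1) = ⊤ := by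
    rw [ker, X.chern_pow_zero]
    exact LinearMap.ker_zero
  rw [kd, h1, top_inf_eq]
  rfl

/-- The layers with large index are zero. -/
theorem layerNumber_large {a p q : ℕ} (h : n < a) : layerNumber X a p q = 0 := by
  have h1 : ∀ b p q, n < b → kd X b p q = X.hodgeNumber p q := by
    intro b p q hb
    obtain ⟨k, rfl⟩ : ∃ k, b = n + 1 + k := ⟨b - (n + 1), by omega⟩
    have h2 : ker X (n + 1 + k) = ⊤ := by
      rw [ker, pow_add, X.chern_pow_zero, zero_mul]
      exact LinearMap.ker_zero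
    rw [kd, h2, top_inf_eq]
    rfl
  rcases Nat.eq_zero_or_pos p with hp | hp
  · have h2 := layerNumber_zero X (a := a) (q := q) (Or.inl hp)
    rw [h1 a _ _ h, h1 (a + 1) _ _ (by omega)] at h2
    omega
  rcases Nat.eq_zero_or_pos q with hq | hq
  · have h2 := layerNumber_zero X (a := a) (p := p) (Or.inr hq)
    rw [h1 a _ _ h, h1 (a + 1) _ _ (by omega)] at h2
    omega
  obtain ⟨p, rfl⟩ : ∃ p', p = p' + 1 := ⟨p - 1, by omega⟩
  obtain ⟨q, rfl⟩ : ∃ q', q = q' + 1 := ⟨q - 1, by omega⟩
  have h2 := layerNumber_succ X a p q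
  rw [h1 a _ _ h, h1 (a + 1) _ _ (by omega), h1 (a + 2) _ _ (by omega),
    h1 (a + 1) _ _ (by omega)] at h2
  omega

theorem kd_le (a p q : ℕ) : kd X a p q ≤ kd X (a + 1) p q :=
  Submodule.finrank_mono (inf_le_inf_right _ (ker_mono X a))

/-- If the Hodge numbers of all layers agree, then the Hodge numbers agree. -/
theorem hodge_of_layers {X Y : Twisted n}
    (h : ∀ a p q, a ≤ n → layerNumber X a p q = layerNumber Y a p q) (p q : ℕ) :
    X.hodgeNumber p q = Y.hodgeNumber p q := by
  have h' : ∀ a p q, layerNumber X a p q = layerNumber Y a p q := by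
    intro a p q
    by_cases ha : a ≤ n
    · exact h a p q ha
    · rw [layerNumber_large X (by omega), layerNumber_large Y (by omega)]
  have key : ∀ p q a, kd X (a + 1) p q + kd Y a p q = kd Y (a + 1) p q + kd X a p q := by
    intro p
    induction p with
    | zero =>
      intro q a
      have h1 := layerNumber_zero X (a := a) (q := q) (Or.inl rfl : (0 : ℕ) = 0 ∨ q = 0)
      have h2 := layerNumber_zero Y (a := a) (q := q) (Or.inl rfl : (0 : ℕ) = 0 ∨ q = 0)
      have h3 := h' a 0 q
      omega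
    | succ p ih =>
      intro q a
      rcases Nat.eq_zero_or_pos q with hq | hq
      · have h1 := layerNumber_zero X (a := a) (p := p + 1) (Or.inr hq)
        have h2 := layerNumber_zero Y (a := a) (p := p + 1) (Or.inr hq)
        have h3 := h' a (p + 1) q
        omega
      · obtain ⟨q, rfl⟩ : ∃ q', q = q' + 1 := ⟨q - 1, by omega⟩
        have h1 := layerNumber_succ X a p q
        have h2 := layerNumber_succ Y a p q
        have h3 := h' a (p + 1) (q + 1)
        have h4 := ih q (a + 1)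
        have h5 : a + 1 + 1 = a + 2 := rfl
        rw [h5] at h4
        omega
  have key2 : ∀ a, kd X a p q = kd Y a p q := by
    intro a
    induction a with
    | zero => rw [kd_zero, kd_zero]
    | succ a ih =>
      have h1 := key p q a
      omega
  rw [← kd_large, ← kd_large, key2]

end Pool.Agent.Y111.DI
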