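import Pool.Agent.TH125.Tw.Def

/-!
# The Jordan layers of the cup product with the first Chern class
-/

namespace Pool.Agent.Y111.DI

open Module Pool.Agent.TH125.Tw

variable {n : ℕ}

/-- The classes `x` with `c₁ ^ a ∪ x = 0`. -/
def ker (X : Twisted n) (a : ℕ) : Submodule ℂ X.H := LinearMap.ker (X.chern ^ a)

/-- The sum of the space of the classes `x` with `c₁ ^ a ∪ x = 0` and the space of the classes
`c₁ ∪ z` with `c₁ ^ (a + 2) ∪ z = 0`. The quotient of `ker X (a + 1)` by this subspace is called the
`a`-th layer. -/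
def low (X : Twisted n) (a : ℕ) : Submodule ℂ X.H := ker X a ⊔ (ker X (a + 2)).map X.chern

/-- The dimension of the part of type `(p, q)` of the `a`-th layer (the number of the Jordan blocks
of size `a + 1` of the cup product with `c₁` which begin in type `(p, q)`). -/
noncomputable def layerNumber (X : Twisted n) (a p q : ℕ) : ℕ :=
  finrank ℂ (ker X (a + 1) ⊓ X.piece p q : Submodule ℂ X.H) -
    finrank ℂ (low X a ⊓ X.piece p q : Submodule ℂ X.H)

/-- The class `η ^ b ∪ x`, where `η` is the Kähler class. -/
def cup (X : Twisted n) (b : ℕ) (x : X.H) : X.H := (X.lef ^ b) x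

/-- The number `∫ c₁ ^ a ∪ x ∪ conj y`. -/
def integral (X : Twisted n) (a : ℕ) (x y : X.H) : ℂ := X.form ((X.chern ^ a) x) y

/-- The sign `i^{p-q} (-1)^{k(k-1)/2}`, `k = p + q`. -/
noncomputable def hrSign (p q : ℕ) : ℂ :=
  Complex.I ^ p * (-Complex.I) ^ q * (-1) ^ ((p + q) * (p + q - 1) / 2)

/-- The class `x` of type `(p, q)` gives an element of the `a`-th layer. -/
def InLayer (X : Twisted n) (a p q : ℕ) (x : X.H) : Prop := x ∈ X.piece p q ∧ x ∈ ker X (a + 1)

/-- The hard Lefschetz theorem for the layers, the `a`-th layer in dimension `n - a`. -/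
def LayerHardLefschetz (X : Twisted n) : Prop :=
  ∀ (a p q b : ℕ) (x : X.H), p + q + a + b = n → InLayer X a p q x →
    cup X b x ∈ low X a → x ∈ low X a

/-- The Hodge–Riemann relations for the layers, where `ε c₁` is semiample (`ε = 1` or `ε = -1`). -/
def LayerHodgeRiemann (X : Twisted n) (ε : ℤˣ) : Prop :=
  ∀ (a p q b : ℕ) (x : X.H), p + q + a + b = n → InLayer X a p q x →
    cup X (b + 1) x ∈ low X a → x ∉ low X a →
      0 < (hrSign p q * (((ε : ℤ) : ℂ) ^ a * integral X a (cup X b x) x)).re

/-- The hard Lefschetz theorem and the Hodge–Riemann relations for the layers: the `a`-th layer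
behaves like the cohomology of a variety of dimension `n - a`. -/
structure LayerRelations (X : Twisted n) (ε : ℤˣ) : Prop where
  comm : ∀ x : X.H, X.lef (X.chern x) = X.chern (X.lef x)
  hard : LayerHardLefschetz X
  riemann : LayerHodgeRiemann X ε

end Pool.Agent.Y111.DI
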