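import Pool.Agent.Y111.DI.Five

/-!
# Holomorphic forms
-/

namespace Pool.Agent.Y111.DI

open Module Finset Pool.Agent.TH125.Tw

variable {n : ℕ} {X Y : Twisted n} {ε : ℤˣ}

theorem layer_edge (hX : LayerRelations X ε) (hY : LayerRelations Y ε) (Φ : Transform X Y)
    {a p q : ℕ} (ha : a ≤ n) (hpq : p = 0 ∨ q = 0)
    (h : p + q + a + 3 ≤ n → layerNumber X a p q = layerNumber Y a p q) :
    layerNumber X a p q = layerNumber Y a p q := by
  by_cases h1 : p + q + a + 3 ≤ n
  · exact h h1
  · refine layer_col hX hY Φ ha fun p' q' hc h2 => ?_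
    exfalso
    rcases hpq with rfl | rfl <;> omega

/-- Only the layers of type `(p, 0)` contribute to `h^{p,0}`. -/
theorem hodge_edge {p q : ℕ} (hpq : p = 0 ∨ q = 0)
    (h : ∀ a, a ≤ n → layerNumber X a p q = layerNumber Y a p q) :
    X.hodgeNumber p q = Y.hodgeNumber p q := by
  have key : ∀ a, a ≤ n + 1 → kd X a p q = kd Y a p q := by
    intro a
    induction a with
    | zero =>
      intro _
      rw [kd_zero, kd_zero]
    | succ a ih =>
      intro ha
      have h1 := layerNumber_zero X (a := a) hpq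
      have h2 := layerNumber_zero Y (a := a) hpq
      have h3 := h a (by omega)
      have h4 := ih (by omega)
      omega
  rw [← kd_large, ← kd_large, key (n + 1) le_rfl]

theorem forms (hX : LayerRelations X ε) (hY : LayerRelations Y ε) (Φ : Transform X Y)
    {p q : ℕ} (hpq : p = 0 ∨ q = 0)
    (h : ∀ a, p + q + a + 3 ≤ n → layerNumber X a p q = layerNumber Y a p q) :
    X.hodgeNumber p q = Y.hodgeNumber p q :=
  hodge_edge hpq fun a ha => layer_edge hX hY Φ ha hpq (h a)

end Pool.Agent.Y111.DI
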