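import Pool.Agent.Y111.DI.Main

/-!
# Fivefolds with semiample (anti)canonical bundle
-/

namespace Pool.Agent.Y111.DI

open Module Finset Pool.Agent.TH125.Tw

section column

variable {m : ℕ} {Z W : Twisted m}

theorem col_mid (Φ : Transform Z W) {p q : ℕ}
    (h : ∀ p' q', p' + q = q' + p → p' + q' + 3 ≤ m → Z.hodgeNumber p' q' = W.hodgeNumber p' q')
    (hpq : p + q = m) : Z.hodgeNumber p q = W.hodgeNumber p q := by
  have h1 := (relations Φ hpq).2
  have h2 : Z.evenDiagonal p q = W.evenDiagonal p q := by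
    rw [Twisted.evenDiagonal, Twisted.evenDiagonal]
    refine Finset.sum_congr rfl fun i hi => ?_
    simp only [mem_filter, mem_range] at hi
    exact h _ _ (by omega) (by omega)
  omega

theorem col_two (Φ : Transform Z W) {p q : ℕ}
    (h : ∀ p' q', p' + q = q' + p → p' + q' + 3 ≤ m → Z.hodgeNumber p' q' = W.hodgeNumber p' q')
    (hpq : p + q + 2 = m) : Z.hodgeNumber p q = W.hodgeNumber p q := by
  have h1 := (relations Φ (p := p + 1) (q := q + 1) (by omega)).1
  have hmem : 1 ∈ (range (min (p + 1) (q + 1) + 1)).filter (fun i => Odd i) := by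
    simp only [mem_filter, mem_range]
    exact ⟨by omega, odd_one⟩
  have hsplit : ∀ V : Twisted m, V.oddDiagonal (p + 1) (q + 1) = V.hodgeNumber p q +
      ∑ i ∈ ((range (min (p + 1) (q + 1) + 1)).filter (fun i => Odd i)).erase 1,
        V.hodgeNumber (p + 1 - i) (q + 1 - i) := by
    intro V
    rw [Twisted.oddDiagonal, ← Finset.add_sum_erase _ _ hmem]
    rfl
  have h2 : ∑ i ∈ ((range (min (p + 1) (q + 1) + 1)).filter (fun i => Odd i)).erase 1,
      Z.hodgeNumber (p + 1 - i) (q + 1 - i) =
      ∑ i ∈ ((range (min (p + 1) (q + 1) + 1)).filter (fun i => Odd i)).erase 1,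
      W.hodgeNumber (p + 1 - i) (q + 1 - i) := by
    refine Finset.sum_congr rfl fun i hi => ?_
    simp only [mem_erase, mem_filter, mem_range] at hi
    obtain ⟨hi1, hi2, ⟨k, hk⟩⟩ := hi
    exact h _ _ (by omega) (by omega)
  rw [hsplit, hsplit, h2] at h1
  exact Nat.add_right_cancel h1

theorem col_one (Φ : Transform Z W) {p q : ℕ}
    (h : ∀ p' q', p' + q = q' + p → p' + q' + 3 ≤ m → Z.hodgeNumber p' q' = W.hodgeNumber p' q')
    (hpq : p + q + 1 = m) : Z.hodgeNumber p q = W.hodgeNumber p q := by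
  obtain ⟨s, hs⟩ : ∃ s, s = min p q := ⟨_, rfl⟩
  obtain ⟨a, rfl⟩ : ∃ a, p = a + s := ⟨p - s, by omega⟩
  obtain ⟨b, rfl⟩ : ∃ b, q = b + s := ⟨q - s, by omega⟩
  have hab : a = 0 ∨ b = 0 := by omega
  have h1 := column_sum Φ (a := a) (b := b) (t := 2 * s + 1) hab (by omega)
  have hdual : ∀ (V : Twisted m) (i : ℕ), i ≤ 2 * s + 1 →
      V.hodgeNumber (a + i) (b + i) = V.hodgeNumber (a + (2 * s + 1 - i)) (b + (2 * s + 1 - i)) := by
    intro V i hi
    exact V.dim_eq (by omega) (by omega)
  have hsplit : ∀ V : Twisted m, ∑ i ∈ range (2 * s + 1 + 1), V.hodgeNumber (a + i) (b + i) =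
      ∑ i ∈ range s, V.hodgeNumber (a + i) (b + i) + V.hodgeNumber (a + s) (b + s) +
      V.hodgeNumber (a + s) (b + s) + ∑ i ∈ range s, V.hodgeNumber (a + i) (b + i) := by
    intro V
    have e1 : 2 * s + 1 + 1 = (s + 1) + (s + 1) := by omega
    rw [e1, Finset.sum_range_add, ← Finset.sum_range_reflect (fun i => V.hodgeNumber (a + (s + 1 + i))
      (b + (s + 1 + i))) (s + 1), sum_range_succ]
    have e2 : ∑ j ∈ range (s + 1), V.hodgeNumber (a + (s + 1 + (s + 1 - 1 - j)))
        (b + (s + 1 + (s + 1 - 1 - j))) = ∑ j ∈ range (s + 1), V.hodgeNumber (a + j) (b + j) := by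
      refine Finset.sum_congr rfl fun j hj => ?_
      rw [mem_range] at hj
      have e3 : s + 1 + (s + 1 - 1 - j) = 2 * s + 1 - j := by omega
      rw [e3]
      exact (hdual V j (by omega)).symm
    rw [e2, sum_range_succ]
    ring
  rw [hsplit, hsplit] at h1
  have h2 : ∑ i ∈ range s, Z.hodgeNumber (a + i) (b + i) =
      ∑ i ∈ range s, W.hodgeNumber (a + i) (b + i) := by
    refine Finset.sum_congr rfl fun i hi => ?_
    rw [mem_range] at hi
    exact h _ _ (by omega) (by omega)
  omega

/-- If the Hodge numbers of a column in degrees at most `m - 3` agree, then all Hodge numbers of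
the column agree. -/
theorem col_all (Φ : Transform Z W) (p q : ℕ)
    (h : ∀ p' q', p' + q = q' + p → p' + q' + 3 ≤ m → Z.hodgeNumber p' q' = W.hodgeNumber p' q') :
    Z.hodgeNumber p q = W.hodgeNumber p q := by
  have key : ∀ p₁ q₁, p₁ + q = q₁ + p → p₁ + q₁ ≤ m →
      Z.hodgeNumber p₁ q₁ = W.hodgeNumber p₁ q₁ := by
    intro p₁ q₁ hc hpq
    have h' : ∀ p' q', p' + q₁ = q' + p₁ → p' + q' + 3 ≤ m →
        Z.hodgeNumber p' q' = W.hodgeNumber p' q' := fun p' q' h1 h2 => h p' q' (by omega) h2
    rcases (by omega : p₁ + q₁ = m ∨ p₁ + q₁ + 1 = m ∨ p₁ + q₁ + 2 = m ∨ p₁ + q₁ + 3 ≤ m) with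
      h1 | h1 | h1 | h1
    · exact col_mid Φ h' h1
    · exact col_one Φ h' h1
    · exact col_two Φ h' h1
    · exact h p₁ q₁ hc h1
  by_cases hpq : p + q ≤ m
  · exact key p q (add_comm p q) hpq
  by_cases hpq' : p ≤ m ∧ q ≤ m
  · have h1 : ∀ V : Twisted m, V.hodgeNumber p q = V.hodgeNumber (m - q) (m - p) :=
      fun V => V.dim_eq (by omega) (by omega)
    rw [h1, h1]
    exact key _ _ (by omega) (by omega)
  · rw [Z.hodge_large (by omega), W.hodge_large (by omega)]

end column

variable {n : ℕ} {X Y : Twisted n} {ε : ℤˣ}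

/-- The columns of the layers. -/
theorem layer_col (hX : LayerRelations X ε) (hY : LayerRelations Y ε) (Φ : Transform X Y)
    {a p q : ℕ} (ha : a ≤ n)
    (h : ∀ p' q', p' + q = q' + p → p' + q' + a + 3 ≤ n →
      layerNumber X a p' q' = layerNumber Y a p' q') :
    layerNumber X a p q = layerNumber Y a p q := by
  rw [← layer_hodgeNumber X hX ha, ← layer_hodgeNumber Y hY ha]
  refine col_all (layerTransform hX hY Φ ha) p q (fun p' q' hc hpq => ?_)
  rw [layer_hodgeNumber, layer_hodgeNumber]
  exact h p' q' hc (by omega)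

/-- If the layers with positive index agree, then the Hodge numbers differ as those of the layer
with index zero. -/
theorem hodge_add_layer
    (h : ∀ a p q, 1 ≤ a → a ≤ n → layerNumber X a p q = layerNumber Y a p q) (p q : ℕ) :
    X.hodgeNumber p q + layerNumber Y 0 p q = Y.hodgeNumber p q + layerNumber X 0 p q := by
  have h' : ∀ a p q, 1 ≤ a → layerNumber X a p q = layerNumber Y a p q := by
    intro a p q ha
    by_cases ha' : a ≤ n
    · exact h a p q ha ha'
    · rw [layerNumber_large X (by omega), layerNumber_large Y (by omega)]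
  have key : ∀ p q a, 1 ≤ a →
      kd X (a + 1) p q + kd Y a p q = kd Y (a + 1) p q + kd X a p q := by
    intro p
    induction p with
    | zero =>
      intro q a ha
      have h1 := layerNumber_zero X (a := a) (q := q) (Or.inl rfl : (0 : ℕ) = 0 ∨ q = 0)
      have h2 := layerNumber_zero Y (a := a) (q := q) (Or.inl rfl : (0 : ℕ) = 0 ∨ q = 0)
      have h3 := h' a 0 q ha
      omega
    | succ p ih =>
      intro q a ha
      rcases Nat.eq_zero_or_pos q with hq | hq
      · have h1 := layerNumber_zero X (a := a) (p := p + 1) (Or.inr hq)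
        have h2 := layerNumber_zero Y (a := a) (p := p + 1) (Or.inr hq)
        have h3 := h' a (p + 1) q ha
        omega
      · obtain ⟨q, rfl⟩ : ∃ q', q = q' + 1 := ⟨q - 1, by omega⟩
        have h1 := layerNumber_succ X a p q
        have h2 := layerNumber_succ Y a p q
        have h3 := h' a (p + 1) (q + 1) ha
        have h4 := ih q (a + 1) (by omega)
        have h5 : a + 1 + 1 = a + 2 := rfl
        rw [h5] at h4
        omega
  have key0 : kd X 1 p q + layerNumber Y 0 p q = kd Y 1 p q + layerNumber X 0 p q := by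
    rcases Nat.eq_zero_or_pos p with hp | hp
    · have h1 := layerNumber_zero X (a := 0) (q := q) (Or.inl hp)
      have h2 := layerNumber_zero Y (a := 0) (q := q) (Or.inl hp)
      rw [kd_zero] at h1 h2
      rw [zero_add] at h1 h2
      omega
    rcases Nat.eq_zero_or_pos q with hq | hq
    · have h1 := layerNumber_zero X (a := 0) (p := p) (Or.inr hq)
      have h2 := layerNumber_zero Y (a := 0) (p := p) (Or.inr hq)
      rw [kd_zero] at h1 h2
      rw [zero_add] at h1 h2
      omega
    obtain ⟨p, rfl⟩ : ∃ p', p = p' + 1 := ⟨p - 1, by omega⟩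
    obtain ⟨q, rfl⟩ : ∃ q', q = q' + 1 := ⟨q - 1, by omega⟩
    have h1 := layerNumber_succ X 0 p q
    have h2 := layerNumber_succ Y 0 p q
    have h3 := key p q 1 le_rfl
    rw [kd_zero] at h1 h2
    simp only [zero_add] at h1 h2
    have h5 : 1 + 1 = 2 := rfl
    rw [h5] at h3
    omega
  have key2 : ∀ a, 1 ≤ a →
      kd X a p q + layerNumber Y 0 p q = kd Y a p q + layerNumber X 0 p q := by
    intro a ha
    induction a with
    | zero => omega
    | succ a ih =>
      rcases Nat.eq_zero_or_pos a with rfl | ha'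
      · exact key0
      · have h1 := key p q a ha'
        have h2 := ih ha'
        omega
  rw [← kd_large, ← kd_large]
  exact key2 (n + 1) (by omega)

/-- **Fivefolds.** -/
theorem fivefolds {X Y : Twisted 5} {ε : ℤˣ} (hX : LayerRelations X ε)
    (hY : LayerRelations Y ε) (Φ : Transform X Y) (c : ℤ)
    (cX : 3 * moment X = 5 * euler X + 2 * c) (cY : 3 * moment Y = 5 * euler Y + 2 * c)
    (h : ∀ a p q, p + q + a ≤ 2 → (a, p, q) ≠ (0, 1, 1) →
      layerNumber X a p q = layerNumber Y a p q) (p q : ℕ) :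
    X.hodgeNumber p q = Y.hodgeNumber p q := by
  have h1 : ∀ a p q, 1 ≤ a → a ≤ 5 → layerNumber X a p q = layerNumber Y a p q := by
    intro a p q ha ha'
    refine layer_col hX hY Φ ha' fun p' q' _ hpq => h a p' q' (by omega) ?_
    intro h'
    have h2 := congrArg Prod.fst h'
    simp only at h2
    omega
  have h2 : ∀ p q, p ≠ q → layerNumber X 0 p q = layerNumber Y 0 p q := by
    intro p q hne
    refine layer_col hX hY Φ (by omega) fun p' q' hc hpq => h 0 p' q' (by omega) ?_
    intro h'
    simp only [Prod.mk.injEq] at h'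
    omega
  have h3 := hodge_add_layer (X := X) (Y := Y) h1
  have h00 : layerNumber X 0 0 0 = layerNumber Y 0 0 0 := h 0 0 0 (by omega) (by simp)
  have hc := layer_column hX hY Φ (a := 0) (p := 0) (q := 0) (t := 5) (Or.inl rfl) (by omega)
  have hd : ∀ V : Twisted 5, LayerRelations V ε → ∀ p q, p ≤ 5 → q ≤ 5 →
      layerNumber V 0 p q = layerNumber V 0 (5 - q) (5 - p) := by
    intro V hV p q hp hq
    rw [← layer_hodgeNumber V hV (Nat.zero_le 5), ← layer_hodgeNumber V hV (Nat.zero_le 5)]
    exact (layer V hV (Nat.zero_le 5)).dim_eq (by omega) (by omega)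
  have x44 := hd X hX 4 4 (by norm_num) (by norm_num)
  have x33 := hd X hX 3 3 (by norm_num) (by norm_num)
  have x55 := hd X hX 5 5 (by norm_num) (by norm_num)
  have y44 := hd Y hY 4 4 (by norm_num) (by norm_num)
  have y33 := hd Y hY 3 3 (by norm_num) (by norm_num)
  have y55 := hd Y hY 5 5 (by norm_num) (by norm_num)
  norm_num at x44 x33 x55 y44 y33 y55
  simp only [sum_range_succ, range_zero, sum_empty, zero_add] at hc
  have hne : ∀ p q, p ≠ q → X.hodgeNumber p q = Y.hodgeNumber p q := by
    intro p q hpq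
    have e1 := h3 p q
    have e2 := h2 p q hpq
    omega
  have d0 := h3 0 0
  have d1 := h3 1 1
  have d2 := h3 2 2
  have d3 := h3 3 3
  have d4 := h3 4 4
  have d5 := h3 5 5
  rw [moment, euler] at cX cY
  simp only [sum_range_succ, range_zero, sum_empty, zero_add] at cX cY
  simp only [
    hne 0 1 (by norm_num), hne 0 2 (by norm_num), hne 0 3 (by norm_num), hne 0 4 (by norm_num),
    hne 0 5 (by norm_num), hne 1 0 (by norm_num), hne 1 2 (by norm_num), hne 1 3 (by norm_num),
    hne 1 4 (by norm_num), hne 1 5 (by norm_num), hne 2 0 (by norm_num), hne 2 1 (by norm_num),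
    hne 2 3 (by norm_num), hne 2 4 (by norm_num), hne 2 5 (by norm_num), hne 3 0 (by norm_num),
    hne 3 1 (by norm_num), hne 3 2 (by norm_num), hne 3 4 (by norm_num), hne 3 5 (by norm_num),
    hne 4 0 (by norm_num), hne 4 1 (by norm_num), hne 4 2 (by norm_num), hne 4 3 (by norm_num),
    hne 4 5 (by norm_num), hne 5 0 (by norm_num), hne 5 1 (by norm_num), hne 5 2 (by norm_num),
    hne 5 3 (by norm_num), hne 5 4 (by norm_num)] at cX
  norm_num at cX cY
  by_cases hpq : p = q
  · subst hpq
    by_cases hp : p ≤ 5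
    · interval_cases p <;> omega
    · rw [X.hodge_large (by omega), Y.hodge_large (by omega)]
  · exact hne p q hpq

end Pool.Agent.Y111.DI
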