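import Pool.Agent.Y111.DI.Proj

/-!
# The layers as polarized Lefschetz modules
-/

namespace Pool.Agent.Y111.DI

open Module Finset Pool.Agent.TH125.Tw

variable {n : ℕ} (X : Twisted n)

/-- The subspace by which the layer is a quotient. -/
abbrev lowIn (a : ℕ) : Submodule ℂ (ker X (a + 1)) := (low X a).comap (ker X (a + 1)).subtype

theorem form_low_left {a : ℕ} {x y : X.H} (hx : x ∈ low X a) (hy : y ∈ ker X (a + 1)) :
    X.form ((X.chern ^ a) x) y = 0 := by
  obtain ⟨u, hu, _, ⟨z, hz, rfl⟩, rfl⟩ := Submodule.mem_sup.1 hx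
  have h1 : (X.chern ^ a) u = 0 := hu
  have h2 : (X.chern ^ (a + 1)) y = 0 := hy
  rw [map_add, h1, zero_add, ← Module.End.mul_apply, ← pow_succ, X.chern_pow_form, h2, map_zero]

theorem form_low_right {a : ℕ} {x y : X.H} (hx : x ∈ ker X (a + 1)) (hy : y ∈ low X a) :
    X.form ((X.chern ^ a) x) y = 0 := by
  obtain ⟨u, hu, _, ⟨z, hz, rfl⟩, rfl⟩ := Submodule.mem_sup.1 hy
  have h1 : (X.chern ^ a) u = 0 := hu
  have h2 : (X.chern ^ (a + 1)) x = 0 := hx
  rw [map_add, X.chern_pow_form, h1, map_zero, zero_add, ← X.chern_form,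
    ← Module.End.mul_apply, ← pow_succ', h2, map_zero, LinearMap.zero_apply]

/-- The form `∫ c₁ ^ a ∪ x ∪ conj y` on the kernel. -/
noncomputable def kerForm (ε : ℤˣ) (a : ℕ) :
    ker X (a + 1) →ₗ[ℂ] ker X (a + 1) →ₛₗ[starRingEnd ℂ] ℂ :=
  (((ε : ℤ) : ℂ) ^ a) • ((X.form.comp ((X.chern ^ a) ∘ₗ (ker X (a + 1)).subtype)).compl₂
    (ker X (a + 1)).subtype)

theorem kerForm_apply (ε : ℤˣ) (a : ℕ) (x y : ker X (a + 1)) :
    kerForm X ε a x y = ((ε : ℤ) : ℂ) ^ a * X.form ((X.chern ^ a) x.1) y.1 := rfl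

/-- The form, on the quotient in the second variable. -/
noncomputable def halfForm (ε : ℤˣ) (a : ℕ) :
    ker X (a + 1) →ₗ[ℂ] Layer X a →ₛₗ[starRingEnd ℂ] ℂ where
  toFun x := (lowIn X a).liftQ (kerForm X ε a x) (by
    intro y hy
    have hy' : y.1 ∈ low X a := hy
    rw [LinearMap.mem_ker, kerForm_apply, form_low_right X x.2 hy', mul_zero])
  map_add' x y := by
    refine LinearMap.ext fun z => ?_
    obtain ⟨z, rfl⟩ := Submodule.mkQ_surjective _ z
    simp only [Submodule.mkQ_apply, Submodule.liftQ_apply, LinearMap.add_apply, map_add]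
  map_smul' c x := by
    refine LinearMap.ext fun z => ?_
    obtain ⟨z, rfl⟩ := Submodule.mkQ_surjective _ z
    simp only [Submodule.mkQ_apply, Submodule.liftQ_apply, LinearMap.smul_apply, map_smul,
      RingHom.id_apply]

theorem halfForm_apply (ε : ℤˣ) (a : ℕ) (x y : ker X (a + 1)) :
    halfForm X ε a x (Submodule.Quotient.mk y) =
      ((ε : ℤ) : ℂ) ^ a * X.form ((X.chern ^ a) x.1) y.1 := rfl

/-- The form on the layer. -/
noncomputable def layerForm (ε : ℤˣ) (a : ℕ) :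
    Layer X a →ₗ[ℂ] Layer X a →ₛₗ[starRingEnd ℂ] ℂ :=
  (lowIn X a).liftQ (halfForm X ε a) (by
    intro x hx
    refine LinearMap.ext fun z => ?_
    obtain ⟨z, rfl⟩ := Submodule.mkQ_surjective _ z
    have hx' : x.1 ∈ low X a := hx
    rw [Submodule.mkQ_apply, halfForm_apply, form_low_left X hx' z.2, mul_zero]
    rfl)

theorem layerForm_apply (ε : ℤˣ) (a : ℕ) (x y : ker X (a + 1)) :
    layerForm X ε a (Submodule.Quotient.mk x) (Submodule.Quotient.mk y) =
      ((ε : ℤ) : ℂ) ^ a * X.form ((X.chern ^ a) x.1) y.1 := rfl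

/-- The map on a layer given by an endomorphism which preserves the two subspaces. -/
noncomputable def onLayer (a : ℕ) (f : X.H →ₗ[ℂ] X.H) (hk : ∀ x ∈ ker X (a + 1), f x ∈ ker X (a + 1))
    (hl : ∀ x ∈ low X a, f x ∈ low X a) : Layer X a →ₗ[ℂ] Layer X a :=
  (lowIn X a).mapQ (lowIn X a) (f.restrict hk) (fun x hx => hl x.1 hx)

theorem onLayer_apply (a : ℕ) (f : X.H →ₗ[ℂ] X.H) (hk : ∀ x ∈ ker X (a + 1), f x ∈ ker X (a + 1))
    (hl : ∀ x ∈ low X a, f x ∈ low X a) (x : ker X (a + 1)) :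
    onLayer X a f hk hl (Submodule.Quotient.mk x) = Submodule.Quotient.mk ⟨f x.1, hk _ x.2⟩ := rfl

theorem mk_zero_iff {a : ℕ} (x : ker X (a + 1)) :
    (Submodule.Quotient.mk x : Layer X a) = 0 ↔ x.1 ∈ low X a :=
  Submodule.Quotient.mk_eq_zero _

theorem mem_layerPiece {a p q : ℕ} (v : Layer X a) :
    v ∈ layerPiece X a p q ↔ ∃ x : ker X (a + 1), x.1 ∈ X.piece p q ∧
      Submodule.Quotient.mk x = v := Iff.rfl

/-- The projections on the layers. -/
noncomputable def layerProj (a p q : ℕ) : Layer X a →ₗ[ℂ] Layer X a :=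
  onLayer X a (proj X p q) (fun _ h => proj_ker X h) (fun _ h => proj_low X h)

theorem layerProj_same {a p q : ℕ} {v : Layer X a} (hv : v ∈ layerPiece X a p q) :
    layerProj X a p q v = v := by
  obtain ⟨x, hx, rfl⟩ := (mem_layerPiece X v).1 hv
  rw [layerProj, onLayer_apply]
  congr 1
  exact Subtype.ext (proj_same X hx)

theorem layerProj_ne {a p q p' q' : ℕ} (h : (p', q') ≠ (p, q)) {v : Layer X a}
    (hv : v ∈ layerPiece X a p' q') : layerProj X a p q v = 0 := by
  obtain ⟨x, hx, rfl⟩ := (mem_layerPiece X v).1 hv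
  rw [layerProj, onLayer_apply, mk_zero_iff]
  change proj X p q x.1 ∈ low X a
  rw [proj_ne X h hx]
  exact Submodule.zero_mem _

theorem layerProj_mem (a p q : ℕ) (v : Layer X a) : layerProj X a p q v ∈ layerPiece X a p q := by
  obtain ⟨x, rfl⟩ := Submodule.mkQ_surjective _ v
  exact (mem_layerPiece X _).2 ⟨⟨proj X p q x.1, proj_ker X x.2⟩, proj_mem X p q x.1, rfl⟩

theorem sum_layerProj (a : ℕ) (v : Layer X a) :
    ∑ p ∈ range (n + 1), ∑ q ∈ range (n + 1), layerProj X a p q v = v := by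
  obtain ⟨x, rfl⟩ := Submodule.mkQ_surjective _ v
  have h1 : x = ∑ p ∈ range (n + 1), ∑ q ∈ range (n + 1),
      (⟨proj X p q x.1, proj_ker X x.2⟩ : ker X (a + 1)) := by
    refine Subtype.ext ?_
    rw [AddSubmonoidClass.coe_finsetSum]
    simp only [AddSubmonoidClass.coe_finsetSum]
    exact (sum_proj X x.1).symm
  conv_rhs => rw [h1]
  rw [map_sum]
  refine Finset.sum_congr rfl fun p _ => ?_
  rw [map_sum]
  rfl

theorem layer_internal (a : ℕ) :
    DirectSum.IsInternal fun i : ℕ × ℕ => layerPiece X a i.1 i.2 := by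
  rw [DirectSum.isInternal_submodule_iff_iSupIndep_and_iSup_eq_top]
  constructor
  · intro i
    rw [Submodule.disjoint_def]
    intro v hv hv'
    have h1 : (⨆ (j : ℕ × ℕ) (_ : j ≠ i), layerPiece X a j.1 j.2) ≤
        LinearMap.ker (layerProj X a i.1 i.2) := by
      refine iSup_le fun j => iSup_le fun hj w hw => ?_
      exact layerProj_ne X hj hw
    have h2 : layerProj X a i.1 i.2 v = 0 := h1 hv'
    rw [layerProj_same X hv] at h2
    exact h2
  · refine Submodule.eq_top_iff'.2 fun v => ?_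
    rw [← sum_layerProj X a v]
    refine Submodule.sum_mem _ fun p _ => Submodule.sum_mem _ fun q _ => ?_
    exact Submodule.mem_iSup_of_mem (p, q) (layerProj_mem X a p q v)

end Pool.Agent.Y111.DI
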