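import Pool.Agent.Y111.DI.Form

/-!
# The layers as polarized Lefschetz modules
-/

namespace Pool.Agent.Y111.DI

open Module Finset Pool.Agent.TH125.Tw

variable {n : ℕ} (X : Twisted n)

/-- Every semilinear functional is given by the form. -/
theorem exists_left (f : X.H →ₛₗ[starRingEnd ℂ] ℂ) : ∃ x, ∀ y, X.form x y = f y := by
  let b := finBasis ℂ X.H
  let T : X.H →ₗ[ℂ] (Fin (finrank ℂ X.H) → ℂ) :=
    { toFun := fun x i => X.form x (b i)
      map_add' := fun x y => by
        funext i
        simp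
      map_smul' := fun c x => by
        funext i
        simp }
  have hT : Function.Injective T := by
    refine (injective_iff_map_eq_zero T).2 fun x hx => X.form_nondeg x fun y => ?_
    rw [← b.sum_repr y, map_sum]
    refine Finset.sum_eq_zero fun i _ => ?_
    have h1 : X.form x (b i) = 0 := congrFun hx i
    rw [LinearMap.map_smulₛₗ, h1, smul_zero]
  have hT' : Function.Surjective T :=
    (LinearMap.injective_iff_surjective_of_finrank_eq_finrank (by simp)).1 hT
  obtain ⟨x, hx⟩ := hT' fun i => f (b i)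
  refine ⟨x, fun y => ?_⟩
  rw [← b.sum_repr y, map_sum, map_sum]
  refine Finset.sum_congr rfl fun i _ => ?_
  have h1 : X.form x (b i) = f (b i) := congrFun hx i
  rw [LinearMap.map_smulₛₗ, LinearMap.map_smulₛₗ, h1]

/-- Every linear functional is given by the form. -/
theorem exists_right (f : X.H →ₗ[ℂ] ℂ) : ∃ y, ∀ x, X.form x y = f x := by
  let g : X.H →ₛₗ[starRingEnd ℂ] ℂ :=
    { toFun := fun x => starRingEnd ℂ (f x)
      map_add' := fun x y => by simp
      map_smul' := fun c x => by simp }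
  obtain ⟨x, hx⟩ := exists_left X g
  refine ⟨X.dual (X.dual x), fun v => ?_⟩
  rw [X.form_swap' (X.dual (X.dual x)) v, X.dual4, hx]
  exact Complex.conj_conj _

theorem mem_range_of {a : ℕ} {u : X.H} (h : ∀ y, (X.chern ^ a) y = 0 → X.form u y = 0) :
    u ∈ LinearMap.range (X.chern ^ a) := by
  by_contra hu
  obtain ⟨f, hf, hf'⟩ := Submodule.exists_le_ker_of_notMem hu
  obtain ⟨y, hy⟩ := exists_right X f
  refine hf ?_
  rw [← hy u]
  refine h y (X.form_nondeg _ fun v => ?_)
  rw [X.form_swap' v, ← X.chern_pow_form]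
  have h1 : f ((X.chern ^ a) (X.dual (X.dual v))) = 0 := hf' ⟨_, rfl⟩
  rw [hy, h1, map_zero]

/-- The form on the layer is nondegenerate. -/
theorem layerForm_nondeg (ε : ℤˣ) (a : ℕ) (v : Layer X a) (h : ∀ w, layerForm X ε a v w = 0) :
    v = 0 := by
  obtain ⟨x, rfl⟩ := Submodule.mkQ_surjective _ v
  rw [Submodule.mkQ_apply, mk_zero_iff]
  have hε : (((ε : ℤ) : ℂ) ^ a) ≠ 0 := by
    refine pow_ne_zero _ ?_
    rcases Int.units_eq_one_or ε with rfl | rfl <;> norm_num
  have h1 : ∀ y, (X.chern ^ (a + 1)) y = 0 → X.form ((X.chern ^ a) x.1) y = 0 := by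
    intro y hy
    have h2 := h (Submodule.Quotient.mk ⟨y, hy⟩)
    rw [Submodule.mkQ_apply, layerForm_apply] at h2
    exact (mul_eq_zero.1 h2).resolve_left hε
  obtain ⟨w, hw⟩ := mem_range_of X h1
  have h3 : (X.chern ^ a) (x.1 - X.chern w) = 0 := by
    rw [map_sub, ← hw, pow_succ, Module.End.mul_apply, sub_self]
  have h4 : (X.chern ^ (a + 2)) w = 0 := by
    have h5 : (X.chern ^ (a + 2)) w = X.chern ((X.chern ^ (a + 1)) w) := by
      rw [← Module.End.mul_apply, ← pow_succ']
    have h6 : (X.chern ^ (a + 1)) x.1 = 0 := x.2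
    rw [h5, hw, ← Module.End.mul_apply, ← pow_succ', h6]
  have h5 : x.1 = (x.1 - X.chern w) + X.chern w := by abel
  rw [h5]
  exact Submodule.add_mem _ (Submodule.mem_sup_left h3) (Submodule.mem_sup_right ⟨w, h4, rfl⟩)

theorem comm_pow {ε : ℤˣ} (hX : LayerRelations X ε) (k : ℕ) (x : X.H) :
    (X.chern ^ k) (X.lef x) = X.lef ((X.chern ^ k) x) := by
  have h1 : Commute X.lef (X.chern ^ k) := Commute.pow_right (LinearMap.ext hX.comm) k
  exact (LinearMap.congr_fun h1.eq x).symm

theorem comm_pow_pow {ε : ℤˣ} (hX : LayerRelations X ε) (k b : ℕ) (x : X.H) :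
    (X.chern ^ k) ((X.lef ^ b) x) = (X.lef ^ b) ((X.chern ^ k) x) := by
  have h1 : Commute (X.lef ^ b) (X.chern ^ k) := Commute.pow_pow (LinearMap.ext hX.comm) b k
  exact (LinearMap.congr_fun h1.eq x).symm

theorem lef_ker {ε : ℤˣ} (hX : LayerRelations X ε) {a : ℕ} {x : X.H} (hx : x ∈ ker X a) :
    X.lef x ∈ ker X a := by
  have h1 : (X.chern ^ a) x = 0 := hx
  change (X.chern ^ a) (X.lef x) = 0
  rw [comm_pow X hX, h1, map_zero]

theorem lef_low {ε : ℤˣ} (hX : LayerRelations X ε) {a : ℕ} {x : X.H} (hx : x ∈ low X a) :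
    X.lef x ∈ low X a := by
  obtain ⟨y, hy, _, ⟨z, hz, rfl⟩, rfl⟩ := Submodule.mem_sup.1 hx
  rw [map_add]
  refine Submodule.add_mem _ (Submodule.mem_sup_left (lef_ker X hX hy))
    (Submodule.mem_sup_right ⟨X.lef z, lef_ker X hX hz, ?_⟩)
  have h1 := comm_pow X hX 1 z
  rw [pow_one] at h1
  exact h1

/-- The Lefschetz operator on the layer. -/
noncomputable def layerLef {ε : ℤˣ} (hX : LayerRelations X ε) (a : ℕ) :
    Layer X a →ₗ[ℂ] Layer X a :=
  onLayer X a X.lef (fun _ h => lef_ker X hX h) (fun _ h => lef_low X hX h)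

theorem lef_pow_ker {ε : ℤˣ} (hX : LayerRelations X ε) {a : ℕ} {x : X.H} (hx : x ∈ ker X a)
    (b : ℕ) : (X.lef ^ b) x ∈ ker X a := by
  induction b with
  | zero => exact hx
  | succ b ih =>
    rw [pow_succ', Module.End.mul_apply]
    exact lef_ker X hX ih

theorem layerLef_pow {ε : ℤˣ} (hX : LayerRelations X ε) (a b : ℕ) (x : ker X (a + 1)) :
    (layerLef X hX a ^ b) (Submodule.Quotient.mk x) =
      Submodule.Quotient.mk ⟨(X.lef ^ b) x.1, lef_pow_ker X hX x.2 b⟩ := by
  induction b with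
  | zero => rfl
  | succ b ih =>
    rw [pow_succ', Module.End.mul_apply, ih, layerLef, onLayer_apply]
    congr 1
    refine Subtype.ext ?_
    change X.lef ((X.lef ^ b) x.1) = (X.lef ^ (b + 1)) x.1
    rw [pow_succ', Module.End.mul_apply]

/-- The graded form of the layer. -/
noncomputable def layerGraded (ε : ℤˣ) (a : ℕ) : GradedForm where
  H := Layer X a
  piece := layerPiece X a
  internal := layer_internal X a
  form := layerForm X ε a

theorem layer_duality (ε : ℤˣ) {a : ℕ} (ha : a ≤ n) : IsDuality (layerGraded X ε a) (n - a) where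
  form_zero := by
    intro p q p' q' x y hx hy h
    obtain ⟨x, hx', rfl⟩ := (mem_layerPiece X _).1 hx
    obtain ⟨y, hy', rfl⟩ := (mem_layerPiece X _).1 hy
    change layerForm X ε a _ _ = 0
    rw [layerForm_apply, X.form_zero (X.chern_pow_mem hx' a) hy', mul_zero]
    intro h'
    apply h
    have h1 := congrArg Prod.fst h'
    have h2 := congrArg Prod.snd h'
    simp only at h1 h2
    ext <;> simp only <;> omega
  form_swap := by
    intro p q p' q' x y hx hy
    obtain ⟨x, hx', rfl⟩ := (mem_layerPiece X _).1 hx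
    obtain ⟨y, hy', rfl⟩ := (mem_layerPiece X _).1 hy
    change layerForm X ε a _ _ = _ * starRingEnd ℂ (layerForm X ε a _ _)
    rw [layerForm_apply, layerForm_apply, X.chern_pow_form, X.form_swap (X.chern_pow_mem hx' a) hy',
      map_mul, map_pow, map_intCast]
    have h1 : ((-1 : ℂ)) ^ ((p + a + (q + a)) * (p' + q')) = (-1) ^ ((p + q) * (p' + q')) := by
      have h2 : (p + a + (q + a)) * (p' + q') = (p + q) * (p' + q') + 2 * (a * (p' + q')) := by
        ring
      rw [h2, pow_add, pow_mul (-1 : ℂ) 2]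
      norm_num
    rw [h1]
    ring
  form_nondeg := layerForm_nondeg X ε a

theorem lef_cup {ε : ℤˣ} (hX : LayerRelations X ε) (a : ℕ) :
    IsCupProduct (layerGraded X ε a) (layerLef X hX a) where
  mem := by
    intro p q x hx
    obtain ⟨x, hx', rfl⟩ := (mem_layerPiece X _).1 hx
    exact (mem_layerPiece X _).2 ⟨⟨X.lef x.1, lef_ker X hX x.2⟩, X.lef_mem hx', rfl⟩
  form_eq := by
    intro x y
    obtain ⟨x, rfl⟩ := Submodule.mkQ_surjective _ x
    obtain ⟨y, rfl⟩ := Submodule.mkQ_surjective _ y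
    change ((ε : ℤ) : ℂ) ^ a * X.form ((X.chern ^ a) (X.lef x.1)) y.1 =
      ((ε : ℤ) : ℂ) ^ a * X.form ((X.chern ^ a) x.1) (X.lef y.1)
    rw [comm_pow X hX, X.lef_form]

/-- The layer, as a polarized Lefschetz module. -/
noncomputable def layer {ε : ℤˣ} (hX : LayerRelations X ε) {a : ℕ} (ha : a ≤ n) :
    Twisted (n - a) where
  toGradedForm := layerGraded X ε a
  duality := layer_duality X ε ha
  lef := layerLef X hX a
  lef_cup := lef_cup X hX a
  hardLefschetz := by
    intro p q x hx hpq h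
    obtain ⟨x, hx', rfl⟩ := (mem_layerPiece X _).1 hx
    have h2 : (layerLef X hX a ^ (n - a - (p + q))) (Submodule.Quotient.mk x) =
      (0 : Layer X a) := h
    rw [layerLef_pow X hX] at h2
    refine (mk_zero_iff X _).2 (hX.hard a p q (n - a - (p + q)) x.1 (by omega) ⟨hx', x.2⟩ ?_)
    exact (mk_zero_iff X _).1 h2
  hodgeRiemann := by
    intro p q x hx hpq h h0
    obtain ⟨x, hx', rfl⟩ := (mem_layerPiece X _).1 hx
    have h2 : (layerLef X hX a ^ (n - a - (p + q) + 1)) (Submodule.Quotient.mk x) =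
      (0 : Layer X a) := h
    rw [layerLef_pow X hX] at h2
    have h1 := hX.riemann a p q (n - a - (p + q)) x.1 (by omega) ⟨hx', x.2⟩
      ((mk_zero_iff X _).1 h2) (fun h' => h0 ((mk_zero_iff X _).2 h'))
    have h3 := layerLef_pow X hX a (n - a - (p + q)) x
    change 0 < (Complex.I ^ p * (-Complex.I) ^ q * (-1) ^ ((p + q) * (p + q - 1) / 2) *
      layerForm X ε a ((layerLef X hX a ^ (n - a - (p + q))) (Submodule.Quotient.mk x))
        (Submodule.Quotient.mk x)).re
    rw [h3]
    exact h1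
  chern := 0
  chern_cup :=
    { mem := fun _ => Submodule.zero_mem _
      form_eq := fun x y => by simp }

end Pool.Agent.Y111.DI
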