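import Pool.Agent.Y111.DI.Count

/-!
# The main theorem on layers
-/

namespace Pool.Agent.Y111.DI

open Module Finset Pool.Agent.TH125.Tw

variable {m : ℕ} {Z W : Twisted m}

theorem agree_mid (Φ : Transform Z W)
    (h : ∀ p q, p + q + 3 ≤ m → Z.hodgeNumber p q = W.hodgeNumber p q) {p q : ℕ}
    (hpq : p + q = m) : Z.hodgeNumber p q = W.hodgeNumber p q := by
  have h1 := (relations Φ hpq).2
  have h2 : Z.evenDiagonal p q = W.evenDiagonal p q := by
    rw [Twisted.evenDiagonal, Twisted.evenDiagonal]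
    refine Finset.sum_congr rfl fun i hi => h _ _ ?_
    simp only [mem_filter, mem_range] at hi
    omega
  omega

theorem agree_two (Φ : Transform Z W)
    (h : ∀ p q, p + q + 3 ≤ m → Z.hodgeNumber p q = W.hodgeNumber p q) {p q : ℕ}
    (hpq : p + q + 2 = m) : Z.hodgeNumber p q = W.hodgeNumber p q := by
  have h1 := (relations Φ (p := p + 1) (q := q + 1) (by omega)).1
  have hmem : 1 ∈ (range (min (p + 1) (q + 1) + 1)).filter (fun i => Odd i) := by
    simp only [mem_filter, mem_range]
    exact ⟨by omega, odd_one⟩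
  have hsplit : ∀ V : Twisted m, V.oddDiagonal (p + 1) (q + 1) = V.hodgeNumber p q +
      ∑ i ∈ ((range (min (p + 1) (q + 1) + 1)).filter (fun i => Odd i)).erase 1,
        V.hodgeNumber (p + 1 - i) (q + 1 - i) := by
    intro V
    rw [Twisted.oddDiagonal, ← Finset.add_sum_erase _ _ hmem]
    rfl
  have h2 : ∑ i ∈ ((range (min (p + 1) (q + 1) + 1)).filter (fun i => Odd i)).erase 1,
      Z.hodgeNumber (p + 1 - i) (q + 1 - i) =
      ∑ i ∈ ((range (min (p + 1) (q + 1) + 1)).filter (fun i => Odd i)).erase 1,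
      W.hodgeNumber (p + 1 - i) (q + 1 - i) := by
    refine Finset.sum_congr rfl fun i hi => h _ _ ?_
    simp only [mem_erase, mem_filter, mem_range] at hi
    obtain ⟨hi1, hi2, ⟨k, hk⟩⟩ := hi
    omega
  rw [hsplit, hsplit, h2] at h1
  exact Nat.add_right_cancel h1

theorem agree_one (Φ : Transform Z W)
    (h : ∀ p q, p + q + 3 ≤ m → Z.hodgeNumber p q = W.hodgeNumber p q) {p q : ℕ}
    (hpq : p + q + 1 = m) : Z.hodgeNumber p q = W.hodgeNumber p q := by
  obtain ⟨s, hs⟩ : ∃ s, s = min p q := ⟨_, rfl⟩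
  obtain ⟨a, rfl⟩ : ∃ a, p = a + s := ⟨p - s, by omega⟩
  obtain ⟨b, rfl⟩ : ∃ b, q = b + s := ⟨q - s, by omega⟩
  have hab : a = 0 ∨ b = 0 := by omega
  have h1 := column_sum Φ (a := a) (b := b) (t := 2 * s + 1) hab (by omega)
  have hdual : ∀ (V : Twisted m) (i : ℕ), i ≤ 2 * s + 1 →
      V.hodgeNumber (a + i) (b + i) = V.hodgeNumber (a + (2 * s + 1 - i)) (b + (2 * s + 1 - i)) := by
    intro V i hi
    exact V.dim_eq (by omega) (by omega)
  have hsplit : ∀ V : Twisted m, ∑ i ∈ range (2 * s + 1 + 1), V.hodgeNumber (a + i) (b + i) =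
      ∑ i ∈ range s, V.hodgeNumber (a + i) (b + i) + V.hodgeNumber (a + s) (b + s) +
      V.hodgeNumber (a + s) (b + s) + ∑ i ∈ range s, V.hodgeNumber (a + i) (b + i) := by
    intro V
    have e1 : 2 * s + 1 + 1 = (s + 1) + (s + 1) := by omega
    rw [e1, Finset.sum_range_add, ← Finset.sum_range_reflect (fun i => V.hodgeNumber (a + (s + 1 + i))
      (b + (s + 1 + i))) (s + 1), sum_range_succ]
    have e2 : ∑ j ∈ range (s + 1), V.hodgeNumber (a + (s + 1 + (s + 1 - 1 - j)))
        (b + (s + 1 + (s + 1 - 1 - j))) = ∑ j ∈ range (s + 1), V.hodgeNumber (a + j) (b + j) := by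
      refine Finset.sum_congr rfl fun j hj => ?_
      rw [mem_range] at hj
      have e3 : s + 1 + (s + 1 - 1 - j) = 2 * s + 1 - j := by omega
      rw [e3]
      exact (hdual V j (by omega)).symm
    rw [e2, sum_range_succ]
    ring
  rw [hsplit, hsplit] at h1
  have h2 : ∑ i ∈ range s, Z.hodgeNumber (a + i) (b + i) =
      ∑ i ∈ range s, W.hodgeNumber (a + i) (b + i) := by
    refine Finset.sum_congr rfl fun i hi => h _ _ ?_
    rw [mem_range] at hi
    omega
  omega

/-- If the Hodge numbers in degrees at most `m - 3` agree, then all Hodge numbers agree. -/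
theorem agree_all (Φ : Transform Z W)
    (h : ∀ p q, p + q + 3 ≤ m → Z.hodgeNumber p q = W.hodgeNumber p q) (p q : ℕ) :
    Z.hodgeNumber p q = W.hodgeNumber p q := by
  have key : ∀ p q, p + q ≤ m → Z.hodgeNumber p q = W.hodgeNumber p q := by
    intro p q hpq
    rcases (by omega : p + q = m ∨ p + q + 1 = m ∨ p + q + 2 = m ∨ p + q + 3 ≤ m) with
      h1 | h1 | h1 | h1
    · exact agree_mid Φ h h1
    · exact agree_one Φ h h1
    · exact agree_two Φ h h1
    · exact h p q h1
  by_cases hpq : p + q ≤ m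
  · exact key p q hpq
  by_cases hpq' : p ≤ m ∧ q ≤ m
  · have h1 : ∀ V : Twisted m, V.hodgeNumber p q = V.hodgeNumber (m - q) (m - p) :=
      fun V => V.dim_eq (by omega) (by omega)
    rw [h1, h1]
    exact key _ _ (by omega)
  · rw [Z.hodge_large (by omega), W.hodge_large (by omega)]

variable {n : ℕ} {X Y : Twisted n} {ε : ℤˣ}

/-- **The relations for the layers.** -/
theorem layer_sums (hX : LayerRelations X ε) (hY : LayerRelations Y ε) (Φ : Transform X Y)
    {a p q : ℕ} (hpq : p + q + a = n) :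
    ∑ i ∈ range (min p q + 1) with Odd i, layerNumber X a (p - i) (q - i) =
      ∑ i ∈ range (min p q + 1) with Odd i, layerNumber Y a (p - i) (q - i) := by
  have ha : a ≤ n := by omega
  have h1 := (relations (layerTransform hX hY Φ ha) (by omega : p + q = n - a)).1
  simp only [Twisted.oddDiagonal, layer_hodgeNumber] at h1
  exact h1

theorem layer_column (hX : LayerRelations X ε) (hY : LayerRelations Y ε) (Φ : Transform X Y)
    {a p q t : ℕ} (hpq : p = 0 ∨ q = 0) (ht : p + q + t + a = n) :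
    ∑ s ∈ range (t + 1), layerNumber X a (p + s) (q + s) =
      ∑ s ∈ range (t + 1), layerNumber Y a (p + s) (q + s) := by
  have ha : a ≤ n := by omega
  have h1 := column_sum (layerTransform hX hY Φ ha) hpq (by omega : p + q + t = n - a)
  simp only [layer_hodgeNumber] at h1
  exact h1

/-- **The main theorem.** -/
theorem hodge_eq (hX : LayerRelations X ε) (hY : LayerRelations Y ε) (Φ : Transform X Y)
    (h : ∀ a p q, p + q + a + 3 ≤ n → layerNumber X a p q = layerNumber Y a p q) (p q : ℕ) :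
    X.hodgeNumber p q = Y.hodgeNumber p q := by
  refine hodge_of_layers (fun a p q ha => ?_) p q
  rw [← layer_hodgeNumber X hX ha, ← layer_hodgeNumber Y hY ha]
  refine agree_all (layerTransform hX hY Φ ha) (fun p q hpq => ?_) p q
  rw [layer_hodgeNumber, layer_hodgeNumber]
  exact h a p q (by omega)

end Pool.Agent.Y111.DI
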