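import Pool.Agent.Y111.DI.Defs

/-!
# The layers as quotients
-/

namespace Pool.Agent.Y111.DI

open Module Pool.Agent.TH125.Tw

variable {n : ℕ}

/-- The `a`-th layer: the quotient of the space of the classes `x` with `c₁ ^ (a + 1) ∪ x = 0` by
its subspace `low X a`. -/
abbrev Layer (X : Twisted n) (a : ℕ) : Type :=
  ker X (a + 1) ⧸ (low X a).comap (ker X (a + 1)).subtype

/-- The part of type `(p, q)` of the `a`-th layer: the image of the classes of type `(p, q)`. -/
def layerPiece (X : Twisted n) (a p q : ℕ) : Submodule ℂ (Layer X a) :=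
  ((X.piece p q).comap (ker X (a + 1)).subtype).map
    (Submodule.mkQ ((low X a).comap (ker X (a + 1)).subtype))

end Pool.Agent.Y111.DI
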