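import Pool.Agent.TH125.Tw.Torsion
import Pool.Agent.Y111.DI.Quot

/-!
# The projections to the parts of a given type
-/

namespace Pool.Agent.Y111.DI

open Module Finset Pool.Agent.TH125.Tw

variable {n : ℕ} (X : Twisted n)

/-- The projection to the part of type `(p, q)`. -/
noncomputable def proj (p q : ℕ) : X.H →ₗ[ℂ] X.H :=
  (X.piece p q).subtype ∘ₗ (DirectSum.component ℂ (ℕ × ℕ) (fun i => X.piece i.1 i.2) (p, q)) ∘ₗ
    X.components.toLinearMap

theorem components_apply {p q : ℕ} {x : X.H} (hx : x ∈ X.piece p q) :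
    X.components x =
      DirectSum.lof ℂ (ℕ × ℕ) (fun i => X.piece i.1 i.2) (p, q) ⟨x, hx⟩ := by
  rw [Twisted.components, LinearEquiv.symm_apply_eq, LinearEquiv.ofBijective_apply,
    DirectSum.coeLinearMap_lof]

theorem proj_same {p q : ℕ} {x : X.H} (hx : x ∈ X.piece p q) : proj X p q x = x := by
  simp only [proj, LinearMap.comp_apply, LinearEquiv.coe_coe]
  rw [components_apply X hx, DirectSum.component.lof_self]
  rfl

theorem proj_ne {p q p' q' : ℕ} (h : (p', q') ≠ (p, q)) {x : X.H} (hx : x ∈ X.piece p' q') :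
    proj X p q x = 0 := by
  simp only [proj, LinearMap.comp_apply, LinearEquiv.coe_coe]
  rw [components_apply X hx, DirectSum.component.of, dif_neg h]
  rfl

theorem proj_mem (p q : ℕ) (x : X.H) : proj X p q x ∈ X.piece p q := Subtype.coe_prop _

theorem sum_proj (x : X.H) :
    ∑ p ∈ range (n + 1), ∑ q ∈ range (n + 1), proj X p q x = x := by
  refine X.ind (P := fun x => ∑ p ∈ range (n + 1), ∑ q ∈ range (n + 1), proj X p q x = x)
    ?_ ?_ ?_ x
  · simp
  · intro a b ha hb
    simp only [map_add, sum_add_distrib, ha, hb]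
  · intro p q x hx
    by_cases h : n < p ∨ n < q
    · rw [X.piece_large h hx]
      simp
    · push Not at h
      rw [Finset.sum_eq_single p, Finset.sum_eq_single q]
      · exact proj_same X hx
      · intro q' _ hq'
        exact proj_ne X (fun h' => hq' (congrArg Prod.snd h').symm) hx
      · intro hq
        exact absurd (mem_range.2 (by omega)) hq
      · intro p' _ hp'
        exact Finset.sum_eq_zero fun q' _ =>
          proj_ne X (fun h' => hp' (congrArg Prod.fst h').symm) hx
      · intro hp
        exact absurd (mem_range.2 (by omega)) hp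

theorem proj_chern (p q : ℕ) (x : X.H) :
    proj X (p + 1) (q + 1) (X.chern x) = X.chern (proj X p q x) := by
  refine X.ind (P := fun x => proj X (p + 1) (q + 1) (X.chern x) = X.chern (proj X p q x))
    ?_ ?_ ?_ x
  · simp
  · intro a b ha hb
    simp only [map_add, ha, hb]
  · intro p' q' x hx
    by_cases h : (p', q') = (p, q)
    · obtain ⟨rfl, rfl⟩ : p' = p ∧ q' = q := by simpa using h
      rw [proj_same X hx, proj_same X (X.chern_mem hx)]
    · rw [proj_ne X h hx, map_zero]
      refine proj_ne X (fun h' => h ?_) (X.chern_mem hx)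
      have h1 := congrArg Prod.fst h'
      have h2 := congrArg Prod.snd h'
      simp only at h1 h2
      ext <;> simp only <;> omega

theorem proj_chern_zero {p q : ℕ} (h : p = 0 ∨ q = 0) (x : X.H) :
    proj X p q (X.chern x) = 0 := by
  refine X.ind (P := fun x => proj X p q (X.chern x) = 0) ?_ ?_ ?_ x
  · simp
  · intro a b ha hb
    simp only [map_add, ha, hb, add_zero]
  · intro p' q' x hx
    refine proj_ne X (fun h' => ?_) (X.chern_mem hx)
    have h1 := congrArg Prod.fst h'
    have h2 := congrArg Prod.snd h'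
    simp only at h1 h2
    omega

theorem proj_chern_pow (p q a : ℕ) (x : X.H) :
    (X.chern ^ a) (proj X p q x) = proj X (p + a) (q + a) ((X.chern ^ a) x) := by
  induction a with
  | zero => simp
  | succ a ih =>
    rw [pow_succ', Module.End.mul_apply, Module.End.mul_apply, ih, ← proj_chern]
    rfl

theorem proj_ker {a p q : ℕ} {x : X.H} (hx : x ∈ ker X a) : proj X p q x ∈ ker X a := by
  have h1 : (X.chern ^ a) x = 0 := hx
  change (X.chern ^ a) (proj X p q x) = 0
  rw [proj_chern_pow, h1, map_zero]

theorem proj_low {a p q : ℕ} {x : X.H} (hx : x ∈ low X a) : proj X p q x ∈ low X a := by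
  obtain ⟨y, hy, _, ⟨z, hz, rfl⟩, rfl⟩ := Submodule.mem_sup.1 hx
  rw [map_add]
  refine Submodule.add_mem _ (Submodule.mem_sup_left (proj_ker X hy)) ?_
  rcases Nat.eq_zero_or_pos p with h | h
  · rw [proj_chern_zero X (Or.inl h)]
    exact Submodule.zero_mem _
  rcases Nat.eq_zero_or_pos q with h' | h'
  · rw [proj_chern_zero X (Or.inr h')]
    exact Submodule.zero_mem _
  obtain ⟨p, rfl⟩ : ∃ p', p = p' + 1 := ⟨p - 1, by omega⟩
  obtain ⟨q, rfl⟩ : ∃ q', q = q' + 1 := ⟨q - 1, by omega⟩
  rw [proj_chern]
  exact Submodule.mem_sup_right ⟨_, proj_ker X hz, rfl⟩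

theorem low_le (a : ℕ) : low X a ≤ ker X (a + 1) := by
  refine sup_le ?_ ?_
  · intro x hx
    have h1 : (X.chern ^ a) x = 0 := hx
    change (X.chern ^ (a + 1)) x = 0
    rw [pow_succ', Module.End.mul_apply, h1, map_zero]
  · rintro _ ⟨z, hz, rfl⟩
    have h1 : (X.chern ^ (a + 2)) z = 0 := hz
    change (X.chern ^ (a + 1)) (X.chern z) = 0
    rw [← Module.End.mul_apply, ← pow_succ]
    exact h1

end Pool.Agent.Y111.DI
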