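import Pool.Agent.Y111.DI.Five

/-!
# Sixfolds with semiample (anti)canonical bundle
-/

namespace Pool.Agent.Y111.DI

open Module Finset Pool.Agent.TH125.Tw

/-- The difference of the layer numbers of `X` and `Y`. -/
noncomputable def dl {n : ℕ} (X Y : Twisted n) (a p q : ℕ) : ℤ :=
  (layerNumber X a p q : ℤ) - layerNumber Y a p q

/-- The difference of the Hodge numbers of `X` and `Y`. -/
noncomputable def dh {n : ℕ} (X Y : Twisted n) (p q : ℕ) : ℤ :=
  (X.hodgeNumber p q : ℤ) - Y.hodgeNumber p q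

section

variable {n : ℕ} {X Y : Twisted n}

theorem two_layers_key (h : ∀ a p q, 2 ≤ a → a ≤ n → layerNumber X a p q = layerNumber Y a p q) :
    ∀ p q a, 2 ≤ a → kd X (a + 1) p q + kd Y a p q = kd Y (a + 1) p q + kd X a p q := by
  have h' : ∀ a p q, 2 ≤ a → layerNumber X a p q = layerNumber Y a p q := by
    intro a p q ha
    by_cases ha' : a ≤ n
    · exact h a p q ha ha'
    · rw [layerNumber_large X (by omega), layerNumber_large Y (by omega)]
  intro p
  induction p with
  | zero =>
    intro q a ha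
    have h1 := layerNumber_zero X (a := a) (q := q) (Or.inl rfl : (0 : ℕ) = 0 ∨ q = 0)
    have h2 := layerNumber_zero Y (a := a) (q := q) (Or.inl rfl : (0 : ℕ) = 0 ∨ q = 0)
    have h3 := h' a 0 q ha
    omega
  | succ p ih =>
    intro q a ha
    rcases Nat.eq_zero_or_pos q with hq | hq
    · have h1 := layerNumber_zero X (a := a) (p := p + 1) (Or.inr hq)
      have h2 := layerNumber_zero Y (a := a) (p := p + 1) (Or.inr hq)
      have h3 := h' a (p + 1) q ha
      omega
    · obtain ⟨q, rfl⟩ : ∃ q', q = q' + 1 := ⟨q - 1, by omega⟩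
      have h1 := layerNumber_succ X a p q
      have h2 := layerNumber_succ Y a p q
      have h3 := h' a (p + 1) (q + 1) ha
      have h4 := ih q (a + 1) (by omega)
      have h5 : a + 1 + 1 = a + 2 := rfl
      rw [h5] at h4
      omega

theorem two_layers_top (hn : 1 ≤ n)
    (h : ∀ a p q, 2 ≤ a → a ≤ n → layerNumber X a p q = layerNumber Y a p q) (p q : ℕ) :
    X.hodgeNumber p q + kd Y 2 p q = Y.hodgeNumber p q + kd X 2 p q := by
  have key := two_layers_key h
  have key2 : ∀ a, 2 ≤ a → kd X a p q + kd Y 2 p q = kd Y a p q + kd X 2 p q := by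
    intro a ha
    induction a with
    | zero => omega
    | succ a ih =>
      by_cases ha' : 2 ≤ a
      · have h1 := key p q a ha'
        have h2 := ih ha'
        omega
      · obtain rfl : a = 1 := by omega
        have : 1 + 1 = 2 := rfl
        rw [this]
        omega
  rw [← kd_large, ← kd_large]
  exact key2 (n + 1) (by omega)

theorem kd_two (h : ∀ a p q, 2 ≤ a → a ≤ n → layerNumber X a p q = layerNumber Y a p q) (p q : ℕ) :
    kd X 2 p q + kd Y 1 p q + layerNumber Y 1 p q =
      kd Y 2 p q + kd X 1 p q + layerNumber X 1 p q := by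
  rcases Nat.eq_zero_or_pos p with hp | hp
  · have h1 := layerNumber_zero X (a := 1) (q := q) (Or.inl hp)
    have h2 := layerNumber_zero Y (a := 1) (q := q) (Or.inl hp)
    have h3 : 1 + 1 = 2 := rfl
    rw [h3] at h1 h2
    omega
  rcases Nat.eq_zero_or_pos q with hq | hq
  · have h1 := layerNumber_zero X (a := 1) (p := p) (Or.inr hq)
    have h2 := layerNumber_zero Y (a := 1) (p := p) (Or.inr hq)
    have h3 : 1 + 1 = 2 := rfl
    rw [h3] at h1 h2
    omega
  obtain ⟨p, rfl⟩ : ∃ p', p = p' + 1 := ⟨p - 1, by omega⟩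
  obtain ⟨q, rfl⟩ : ∃ q', q = q' + 1 := ⟨q - 1, by omega⟩
  have h1 := layerNumber_succ X 1 p q
  have h2 := layerNumber_succ Y 1 p q
  have h3 := two_layers_key h p q 2 le_rfl
  have h4 : 1 + 1 = 2 := rfl
  have h5 : 2 + 1 = 3 := rfl
  have h6 : 1 + 2 = 3 := rfl
  rw [h4, h6] at h1 h2
  rw [h5] at h3
  omega

/-- If the layers with index at least two agree, then the Hodge numbers differ as those of the
first two layers. -/
theorem dh_edge (hn : 1 ≤ n)
    (h : ∀ a p q, 2 ≤ a → a ≤ n → layerNumber X a p q = layerNumber Y a p q) {p q : ℕ}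
    (hpq : p = 0 ∨ q = 0) : dh X Y p q = dl X Y 0 p q + dl X Y 1 p q := by
  have e1 := two_layers_top hn h p q
  have e2 := kd_two h p q
  have h1 := layerNumber_zero X (a := 0) hpq
  have h2 := layerNumber_zero Y (a := 0) hpq
  rw [kd_zero] at h1 h2
  rw [zero_add] at h1 h2
  rw [dh, dl, dl]
  omega

theorem dh_succ (hn : 1 ≤ n)
    (h : ∀ a p q, 2 ≤ a → a ≤ n → layerNumber X a p q = layerNumber Y a p q) (p q : ℕ) :
    dh X Y (p + 1) (q + 1) =
      dl X Y 0 (p + 1) (q + 1) + dl X Y 1 (p + 1) (q + 1) + dl X Y 1 p q := by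
  have e1 := two_layers_top hn h (p + 1) (q + 1)
  have e2 := kd_two h (p + 1) (q + 1)
  have e3 := kd_two h p q
  have h1 := layerNumber_succ X 0 p q
  have h2 := layerNumber_succ Y 0 p q
  rw [kd_zero] at h1 h2
  simp only [zero_add] at h1 h2
  rw [dh, dl, dl, dl]
  omega

end

/-- The indices of the layers in low degrees to which subvarieties of the base may contribute. -/
def Exceptional (a p q : ℕ) : Prop :=
  (a, p, q) = (0, 1, 1) ∨ (a, p, q) = (0, 2, 1) ∨ (a, p, q) = (0, 1, 2) ∨ (a, p, q) = (1, 1, 1)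

theorem exceptional_iff (a p q : ℕ) : Exceptional a p q ↔
    (a = 0 ∧ p = 1 ∧ q = 1) ∨ (a = 0 ∧ p = 2 ∧ q = 1) ∨ (a = 0 ∧ p = 1 ∧ q = 2) ∨
      (a = 1 ∧ p = 1 ∧ q = 1) := by
  simp only [Exceptional, Prod.mk.injEq]

/-- The first table. -/
def tabA (p q : ℕ) : ℤ :=
  if p = q then (if p = 1 ∨ p = 5 then 1 else if p = 3 then -2 else 0) else 0

/-- The second table. -/
def tabC (p q : ℕ) : ℤ :=
  if p + 1 = q ∨ q + 1 = p then
    (if min p q = 1 ∨ min p q = 4 then 1 else if min p q = 2 ∨ min p q = 3 then -1 else 0) else 0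

section six

variable {X Y : Twisted 6} {ε : ℤˣ}

theorem layer_dim_eq (V : Twisted 6) (hV : LayerRelations V ε) {a p q : ℕ} (ha : a ≤ 6)
    (hp : p + a ≤ 6) (hq : q + a ≤ 6) :
    layerNumber V a p q = layerNumber V a (6 - a - q) (6 - a - p) := by
  rw [← layer_hodgeNumber V hV ha, ← layer_hodgeNumber V hV ha]
  exact (layer V hV ha).dim_eq (by omega) (by omega)

theorem layer_out (V : Twisted 6) (hV : LayerRelations V ε) {a p q : ℕ} (ha : a ≤ 6)
    (h : ¬ (p + a ≤ 6 ∧ q + a ≤ 6)) : layerNumber V a p q = 0 := by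
  rw [← layer_hodgeNumber V hV ha]
  exact (layer V hV ha).hodge_large (by omega)

variable (hX : LayerRelations X ε) (hY : LayerRelations Y ε) (Φ : Transform X Y)
  (h : ∀ a p q, p + q + a ≤ 3 → ¬ Exceptional a p q → layerNumber X a p q = layerNumber Y a p q)

include hX hY Φ h

theorem six_two (a p q : ℕ) (ha : 2 ≤ a) (ha' : a ≤ 6) :
    layerNumber X a p q = layerNumber Y a p q := by
  refine layer_col hX hY Φ ha' fun p' q' _ hpq => h a p' q' (by omega) ?_
  rw [exceptional_iff]
  omega

theorem six_far (a p q : ℕ) (hne : p + 2 ≤ q ∨ q + 2 ≤ p) : dl X Y a p q = 0 := by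
  by_cases ha : a ≤ 6
  · rw [dl, layer_col hX hY Φ (p := p) (q := q) ha fun p' q' hc hpq => h a p' q' (by omega) ?_]
    · ring
    · rw [exceptional_iff]
      omega
  · rw [dl, layerNumber_large X (by omega), layerNumber_large Y (by omega)]
    ring

theorem six_one (p q : ℕ) (hne : p ≠ q) : dl X Y 1 p q = 0 := by
  rw [dl, layer_col hX hY Φ (p := p) (q := q) (by norm_num) fun p' q' hc hpq =>
    h 1 p' q' (by omega) ?_]
  · ring
  · rw [exceptional_iff]
    omega

theorem six_zero_ne (hs : dl X Y 0 2 1 = dl X Y 0 1 2) (p q : ℕ) (hne : p ≠ q) :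
    dl X Y 0 p q = dl X Y 0 2 1 * tabC p q := by
  by_cases hfar : p + 2 ≤ q ∨ q + 2 ≤ p
  · rw [six_far hX hY Φ h 0 p q hfar, tabC, if_neg (by omega)]
    ring
  by_cases hout : p ≤ 6 ∧ q ≤ 6
  · have c1 := layer_column hX hY Φ (a := 0) (p := 1) (q := 0) (t := 5) (Or.inr rfl) (by omega)
    have c2 := layer_column hX hY Φ (a := 0) (p := 0) (q := 1) (t := 5) (Or.inl rfl) (by omega)
    simp only [sum_range_succ, range_zero, sum_empty, zero_add] at c1 c2
    norm_num at c1 c2
    have x10 := h 0 1 0 (by omega) (by rw [exceptional_iff]; omega)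
    have x01 := h 0 0 1 (by omega) (by rw [exceptional_iff]; omega)
    have a1 := layer_dim_eq X hX (a := 0) (p := 6) (q := 5) (by norm_num) (by norm_num) (by norm_num)
    have a2 := layer_dim_eq X hX (a := 0) (p := 5) (q := 4) (by norm_num) (by norm_num) (by norm_num)
    have a3 := layer_dim_eq X hX (a := 0) (p := 4) (q := 3) (by norm_num) (by norm_num) (by norm_num)
    have a4 := layer_dim_eq X hX (a := 0) (p := 5) (q := 6) (by norm_num) (by norm_num) (by norm_num)
    have a5 := layer_dim_eq X hX (a := 0) (p := 4) (q := 5) (by norm_num) (by norm_num) (by norm_num)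
    have a6 := layer_dim_eq X hX (a := 0) (p := 3) (q := 4) (by norm_num) (by norm_num) (by norm_num)
    have b1 := layer_dim_eq Y hY (a := 0) (p := 6) (q := 5) (by norm_num) (by norm_num) (by norm_num)
    have b2 := layer_dim_eq Y hY (a := 0) (p := 5) (q := 4) (by norm_num) (by norm_num) (by norm_num)
    have b3 := layer_dim_eq Y hY (a := 0) (p := 4) (q := 3) (by norm_num) (by norm_num) (by norm_num)
    have b4 := layer_dim_eq Y hY (a := 0) (p := 5) (q := 6) (by norm_num) (by norm_num) (by norm_num)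
    have b5 := layer_dim_eq Y hY (a := 0) (p := 4) (q := 5) (by norm_num) (by norm_num) (by norm_num)
    have b6 := layer_dim_eq Y hY (a := 0) (p := 3) (q := 4) (by norm_num) (by norm_num) (by norm_num)
    norm_num at a1 a2 a3 a4 a5 a6 b1 b2 b3 b4 b5 b6
    rw [dl, dl] at hs
    rcases (by omega : q = p + 1 ∨ p = q + 1) with rfl | rfl
    · have hp : p ≤ 5 := by omega
      interval_cases p <;> simp only [dl, tabC] <;> norm_num <;> omega
    · have hp : q ≤ 5 := by omega
      interval_cases q <;> simp only [dl, tabC] <;> norm_num <;> omega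
  · rw [dl, layer_out X hX (by norm_num) (by omega), layer_out Y hY (by norm_num) (by omega), tabC]
    have : (if min p q = 1 ∨ min p q = 4 then (1 : ℤ)
      else if min p q = 2 ∨ min p q = 3 then -1 else 0) = 0 := by
      rw [if_neg (by omega), if_neg (by omega)]
    rw [this]
    simp

theorem six_zero_eq (p : ℕ) : dl X Y 0 p p = dl X Y 0 1 1 * tabA p p := by
  by_cases hout : p ≤ 6
  · have c1 := layer_column hX hY Φ (a := 0) (p := 0) (q := 0) (t := 6) (Or.inr rfl) (by omega)
    have c2 := layer_sums hX hY Φ (a := 0) (p := 3) (q := 3) (by omega)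
    have e1 : (range (min 3 3 + 1)).filter (fun i => Odd i) = {1, 3} := by decide
    rw [e1] at c2
    simp only [sum_range_succ, range_zero, sum_empty, zero_add] at c1
    rw [sum_pair (by norm_num), sum_pair (by norm_num)] at c2
    norm_num at c1 c2
    have x00 := h 0 0 0 (by omega) (by rw [exceptional_iff]; omega)
    have a1 := layer_dim_eq X hX (a := 0) (p := 6) (q := 6) (by norm_num) (by norm_num) (by norm_num)
    have a2 := layer_dim_eq X hX (a := 0) (p := 5) (q := 5) (by norm_num) (by norm_num) (by norm_num)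
    have a3 := layer_dim_eq X hX (a := 0) (p := 4) (q := 4) (by norm_num) (by norm_num) (by norm_num)
    have b1 := layer_dim_eq Y hY (a := 0) (p := 6) (q := 6) (by norm_num) (by norm_num) (by norm_num)
    have b2 := layer_dim_eq Y hY (a := 0) (p := 5) (q := 5) (by norm_num) (by norm_num) (by norm_num)
    have b3 := layer_dim_eq Y hY (a := 0) (p := 4) (q := 4) (by norm_num) (by norm_num) (by norm_num)
    norm_num at a1 a2 a3 b1 b2 b3
    interval_cases p <;> simp only [dl, tabA] <;> norm_num <;> omega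
  · rw [dl, layer_out X hX (by norm_num) (by omega), layer_out Y hY (by norm_num) (by omega), tabA,
      if_pos rfl, if_neg (by omega), if_neg (by omega)]
    simp

/-- The third table. -/
theorem six_one_eq (p : ℕ) : dl X Y 1 p p =
    dl X Y 1 1 1 * (if p = 1 ∨ p = 4 then 1 else if p = 2 ∨ p = 3 then -1 else 0) := by
  by_cases hout : p ≤ 5
  · have c1 := layer_column hX hY Φ (a := 1) (p := 0) (q := 0) (t := 5) (Or.inr rfl) (by omega)
    simp only [sum_range_succ, range_zero, sum_empty, zero_add] at c1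
    norm_num at c1
    have x00 := h 1 0 0 (by omega) (by rw [exceptional_iff]; omega)
    have a1 := layer_dim_eq X hX (a := 1) (p := 5) (q := 5) (by norm_num) (by norm_num) (by norm_num)
    have a2 := layer_dim_eq X hX (a := 1) (p := 4) (q := 4) (by norm_num) (by norm_num) (by norm_num)
    have a3 := layer_dim_eq X hX (a := 1) (p := 3) (q := 3) (by norm_num) (by norm_num) (by norm_num)
    have b1 := layer_dim_eq Y hY (a := 1) (p := 5) (q := 5) (by norm_num) (by norm_num) (by norm_num)
    have b2 := layer_dim_eq Y hY (a := 1) (p := 4) (q := 4) (by norm_num) (by norm_num) (by norm_num)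
    have b3 := layer_dim_eq Y hY (a := 1) (p := 3) (q := 3) (by norm_num) (by norm_num) (by norm_num)
    norm_num at a1 a2 a3 b1 b2 b3
    interval_cases p <;> simp only [dl] <;> norm_num <;> omega
  · rw [dl, layer_out X hX (by norm_num) (by omega), layer_out Y hY (by norm_num) (by omega),
      if_neg (by omega), if_neg (by omega)]
    simp

theorem six_table (hs : dl X Y 0 2 1 = dl X Y 0 1 2) (p q : ℕ) :
    dh X Y p q = (dl X Y 0 1 1 + dl X Y 1 1 1) * tabA p q + dl X Y 0 2 1 * tabC p q := by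
  have k1 := six_zero_ne hX hY Φ h hs
  have k2 := six_one hX hY Φ h
  have k3 := six_zero_eq hX hY Φ h
  have k4 := six_one_eq hX hY Φ h
  have hA : ∀ p q, p ≠ q → tabA p q = 0 := fun p q hpq => by rw [tabA, if_neg hpq]
  have hC : ∀ p, tabC p p = 0 := fun p => by rw [tabC, if_neg (by omega)]
  by_cases hpq : p = q
  · subst hpq
    rcases Nat.eq_zero_or_pos p with rfl | hp
    · rw [dh_edge (by norm_num) (six_two hX hY Φ h) (Or.inl rfl), k3, k4, hC]
      norm_num [tabA]
    · obtain ⟨p, rfl⟩ : ∃ p', p = p' + 1 := ⟨p - 1, by omega⟩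
      rw [dh_succ (by norm_num) (six_two hX hY Φ h), k3, k4 (p + 1), k4 p, hC]
      by_cases hp5 : p ≤ 5
      · interval_cases p <;> norm_num [tabA] <;> ring
      · rw [tabA, if_pos rfl, if_neg (by omega), if_neg (by omega), if_neg (by omega),
          if_neg (by omega), if_neg (by omega), if_neg (by omega)]
        ring
  · rw [hA p q hpq]
    by_cases h0 : p = 0 ∨ q = 0
    · rw [dh_edge (by norm_num) (six_two hX hY Φ h) h0, k1 p q hpq, k2 p q hpq]
      ring
    · obtain ⟨p, rfl⟩ : ∃ p', p = p' + 1 := ⟨p - 1, by omega⟩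
      obtain ⟨q, rfl⟩ : ∃ q', q = q' + 1 := ⟨q - 1, by omega⟩
      rw [dh_succ (by norm_num) (six_two hX hY Φ h), k1 _ _ hpq, k2 _ _ hpq, k2 p q (by omega)]
      ring

end six

/-- The Hodge polynomial `∑ (-1)^{p+q} h^{p,q} u^p v^q`. -/
noncomputable def hodgePoly {n : ℕ} (X : Twisted n) (u v : ℤ) : ℤ :=
  ∑ p ∈ range (n + 1), ∑ q ∈ range (n + 1), (-1) ^ (p + q) * (X.hodgeNumber p q : ℤ) * u ^ p * v ^ q

/-- **Sixfolds.** -/
theorem sixfolds {X Y : Twisted 6} {ε : ℤˣ} (hX : LayerRelations X ε)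
    (hY : LayerRelations Y ε) (Φ : Transform X Y) (c : ℤ)
    (cX : 3 * moment X = 6 * euler X + 2 * c) (cY : 3 * moment Y = 6 * euler Y + 2 * c)
    (h : ∀ a p q, p + q + a ≤ 3 → ¬ Exceptional a p q →
      layerNumber X a p q = layerNumber Y a p q)
    (sX : layerNumber X 0 2 1 = layerNumber X 0 1 2)
    (sY : layerNumber Y 0 2 1 = layerNumber Y 0 1 2) (p q : ℕ) :
    dh X Y p q = dh X Y 1 1 * (tabA p q + tabC p q) := by
  have hs : dl X Y 0 2 1 = dl X Y 0 1 2 := by rw [dl, dl, sX, sY]
  have key := six_table hX hY Φ h hs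
  have k1 := key 1 1
  have e1 : tabA 1 1 = 1 := by norm_num [tabA]
  have e2 : tabC 1 1 = 0 := by norm_num [tabC]
  rw [e1, e2] at k1
  obtain ⟨s, hs'⟩ : ∃ s, s = dl X Y 0 1 1 + dl X Y 1 1 1 := ⟨_, rfl⟩
  obtain ⟨w, hw⟩ : ∃ w, w = dl X Y 0 2 1 := ⟨_, rfl⟩
  rw [← hs', ← hw] at key k1
  have hm : moment X - moment Y = ∑ p ∈ range (6 + 1), ∑ q ∈ range (6 + 1),
      (-1) ^ (p + q) * (2 * (p : ℤ) - 6) ^ 2 * (s * tabA p q + w * tabC p q) := by
    rw [moment, moment, ← Finset.sum_sub_distrib]
    refine Finset.sum_congr rfl fun p _ => ?_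
    rw [← Finset.sum_sub_distrib]
    refine Finset.sum_congr rfl fun q _ => ?_
    rw [← key p q, dh]
    push_cast
    ring
  have he : euler X - euler Y = ∑ p ∈ range (6 + 1), ∑ q ∈ range (6 + 1),
      (-1) ^ (p + q) * (s * tabA p q + w * tabC p q) := by
    rw [euler, euler, ← Finset.sum_sub_distrib]
    refine Finset.sum_congr rfl fun p _ => ?_
    rw [← Finset.sum_sub_distrib]
    refine Finset.sum_congr rfl fun q _ => ?_
    rw [← key p q, dh]
    ring
  simp only [sum_range_succ, range_zero, sum_empty, zero_add] at hm he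
  norm_num [tabA, tabC] at hm he
  have hws : w = s := by linarith
  rw [key p q, k1, hws]
  ring

theorem hodgePoly_sub {X Y : Twisted 6}
    (h : ∀ p q, dh X Y p q = dh X Y 1 1 * (tabA p q + tabC p q)) (u v : ℤ) :
    hodgePoly X u v = hodgePoly Y u v + dh X Y 1 1 *
      (u * v * (1 - u) * (1 - v) * (1 - u * v) * (1 - u ^ 2 * v ^ 2)) := by
  have h1 : hodgePoly X u v - hodgePoly Y u v = dh X Y 1 1 * ∑ p ∈ range (6 + 1),
      ∑ q ∈ range (6 + 1), (-1) ^ (p + q) * (tabA p q + tabC p q) * u ^ p * v ^ q := by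
    rw [hodgePoly, hodgePoly, ← Finset.sum_sub_distrib, Finset.mul_sum]
    refine Finset.sum_congr rfl fun p _ => ?_
    rw [← Finset.sum_sub_distrib, Finset.mul_sum]
    refine Finset.sum_congr rfl fun q _ => ?_
    have h2 := h p q
    have h3 : (X.hodgeNumber p q : ℤ) = Y.hodgeNumber p q + dh X Y p q := by rw [dh]; ring
    rw [h3, h2]
    ring
  have h2 : ∑ p ∈ range (6 + 1),
      ∑ q ∈ range (6 + 1), (-1) ^ (p + q) * (tabA p q + tabC p q) * u ^ p * v ^ q =
      u * v * (1 - u) * (1 - v) * (1 - u * v) * (1 - u ^ 2 * v ^ 2) := by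
    simp only [sum_range_succ, range_zero, sum_empty, zero_add]
    norm_num [tabA, tabC]
    ring
  rw [h2] at h1
  linarith

end Pool.Agent.Y111.DI
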