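import Pool.Agent.Y111.DI.Layer

/-!
# The transform and the layers
-/

namespace Pool.Agent.Y111.DI

open Module Finset Pool.Agent.TH125.Tw

variable {n : ℕ} {X Y : Twisted n}

theorem dual_eq_zero (X : Twisted n) {x : X.H} (h : X.dual x = 0) : x = 0 := X.dual_zero_of h

theorem dual_surj (X : Twisted n) (x : X.H) : ∃ y, X.dual y = x :=
  ⟨X.dual (X.dual (X.dual x)), X.dual4 x⟩

/-- The transform commutes with the cup product with the first Chern class. -/
theorem map_chern (Φ : Transform X Y) (y : X.H) : Φ.map (X.chern y) = Y.chern (Φ.map y) := by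
  rcases Nat.eq_zero_or_pos n with rfl | hn
  · have h1 : ∀ Z : Twisted 0, Z.chern = 0 := fun Z => by
      have h2 := Z.chern_pow_zero
      rwa [zero_add, pow_one] at h2
    rw [h1 X, h1 Y, LinearMap.zero_apply, LinearMap.zero_apply, map_zero]
  have key : ∀ x y, Y.form (Y.chern (Y.dual (Φ.map x))) (Φ.map y) =
      X.form (X.chern (X.dual x)) y := by
    intro x y
    have h1 : Transform.poly Y (Φ.map x) (Φ.map y) = Transform.poly X x y := by
      refine Polynomial.eq_of_infinite_eval_eq _ _ ?_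
      refine Set.Infinite.mono (s := Set.range fun m : ℕ => (1 / 2 - m : ℂ)) ?_ ?_
      · rintro _ ⟨m, rfl⟩
        change (Transform.poly Y (Φ.map x) (Φ.map y)).eval _ = (Transform.poly X x y).eval _
        rw [Transform.poly_eval, Transform.poly_eval, Φ.pair_nat]
      · refine Set.infinite_range_of_injective fun a b h => ?_
        simp only [sub_right_inj] at h
        exact_mod_cast h
    have h2 : ∀ (Z : Twisted n) (u v : Z.H), (Transform.poly Z u v).coeff 1 =
        Z.form (Z.chern (Z.dual u)) v := by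
      intro Z u v
      rw [Transform.poly, Polynomial.finsetSum_coeff, Finset.sum_eq_single 1]
      · rw [Polynomial.coeff_C_mul_X_pow]
        simp
      · intro k _ hk
        rw [Polynomial.coeff_C_mul_X_pow, if_neg (Ne.symm hk)]
      · intro h
        exact absurd (mem_range.2 (by omega)) h
    rw [← h2, ← h2, h1]
  have h3 : ∀ w, Y.form w (Φ.map (X.chern y) - Y.chern (Φ.map y)) = 0 := by
    intro w
    obtain ⟨w, rfl⟩ := dual_surj Y w
    obtain ⟨w, rfl⟩ := Φ.map.surjective w
    rw [map_sub, Φ.map_form', ← Y.chern_form, key, X.chern_form, sub_self]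
  refine sub_eq_zero.1 (Y.form_nondeg _ fun w => ?_)
  rw [Y.form_swap' w, h3, map_zero]

theorem map_chern_pow (Φ : Transform X Y) (k : ℕ) (y : X.H) :
    Φ.map ((X.chern ^ k) y) = (Y.chern ^ k) (Φ.map y) := by
  induction k with
  | zero => rfl
  | succ k ih =>
    rw [pow_succ', Module.End.mul_apply, map_chern, ih, pow_succ', Module.End.mul_apply]

theorem map_ker (Φ : Transform X Y) (a : ℕ) :
    (ker X a).map (Φ.map : X.H →ₗ[ℂ] Y.H) = ker Y a := by
  ext y
  constructor
  · rintro ⟨x, hx, rfl⟩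
    have h1 : (X.chern ^ a) x = 0 := hx
    change (Y.chern ^ a) (Φ.map x) = 0
    rw [← map_chern_pow, h1, map_zero]
  · intro hy
    obtain ⟨x, rfl⟩ := Φ.map.surjective y
    have h1 : (Y.chern ^ a) (Φ.map x) = 0 := hy
    refine ⟨x, ?_, rfl⟩
    rw [← map_chern_pow] at h1
    exact Φ.map.map_eq_zero_iff.1 h1

theorem map_low (Φ : Transform X Y) (a : ℕ) :
    (low X a).map (Φ.map : X.H →ₗ[ℂ] Y.H) = low Y a := by
  rw [low, low, Submodule.map_sup, map_ker, ← map_ker Φ (a + 2)]
  congr 1
  ext y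
  constructor
  · rintro ⟨_, ⟨z, hz, rfl⟩, rfl⟩
    exact ⟨Φ.map z, ⟨z, hz, rfl⟩, (map_chern Φ z).symm⟩
  · rintro ⟨_, ⟨z, hz, rfl⟩, rfl⟩
    exact ⟨X.chern z, ⟨z, hz, rfl⟩, map_chern Φ z⟩

/-- The map between the kernels. -/
noncomputable def kerEquiv (Φ : Transform X Y) (a : ℕ) : ker X a ≃ₗ[ℂ] ker Y a :=
  Φ.map.ofSubmodules (ker X a) (ker Y a) (map_ker Φ a)

theorem kerEquiv_coe (Φ : Transform X Y) (a : ℕ) (x : ker X a) :
    (kerEquiv Φ a x).1 = Φ.map x.1 := rfl

theorem map_lowIn (Φ : Transform X Y) (a : ℕ) :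
    (lowIn X a).map (kerEquiv Φ (a + 1) : ker X (a + 1) →ₗ[ℂ] ker Y (a + 1)) = lowIn Y a := by
  ext y
  constructor
  · rintro ⟨x, hx, rfl⟩
    have h1 : x.1 ∈ low X a := hx
    change Φ.map x.1 ∈ low Y a
    rw [← map_low Φ a]
    exact ⟨x.1, h1, rfl⟩
  · intro hy
    obtain ⟨x, rfl⟩ := (kerEquiv Φ (a + 1)).surjective y
    have h1 : Φ.map x.1 ∈ low Y a := hy
    rw [← map_low Φ a] at h1
    obtain ⟨x', hx', h2⟩ := h1
    have h3 : x' = x.1 := Φ.map.injective h2
    subst h3
    exact ⟨x, hx', rfl⟩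

/-- The map between the layers. -/
noncomputable def layerEquiv (Φ : Transform X Y) (a : ℕ) : Layer X a ≃ₗ[ℂ] Layer Y a :=
  Submodule.Quotient.equiv (lowIn X a) (lowIn Y a) (kerEquiv Φ (a + 1)) (map_lowIn Φ a)

theorem layerEquiv_mk (Φ : Transform X Y) (a : ℕ) (x : ker X (a + 1)) :
    layerEquiv Φ a (Submodule.Quotient.mk x) = Submodule.Quotient.mk (kerEquiv Φ (a + 1) x) := rfl

theorem proj_column {p q p' q' : ℕ} (h : p' + q ≠ q' + p) {x : X.H} (hx : x ∈ X.column p q) :
    proj X p' q' x = 0 := by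
  refine X.column_ind (P := fun x => proj X p' q' x = 0) (map_zero _) ?_ ?_ hx
  · intro a b ha hb
    rw [map_add, ha, hb, add_zero]
  · intro a b hab x hx
    refine proj_ne X (fun h' => h ?_) hx
    have h1 := congrArg Prod.fst h'
    have h2 := congrArg Prod.snd h'
    simp only at h1 h2
    omega

theorem dual_ker (X : Twisted n) {a : ℕ} {x : X.H} (hx : x ∈ ker X a) : X.dual x ∈ ker X a := by
  have h1 : (X.chern ^ a) x = 0 := hx
  change (X.chern ^ a) (X.dual x) = 0
  have h2 := X.dual_chern_pow a x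
  rw [h1, map_zero] at h2
  exact (smul_eq_zero.1 h2.symm).resolve_left (pow_ne_zero _ (by norm_num))

theorem dual_low (X : Twisted n) {a : ℕ} {x : X.H} (hx : x ∈ low X a) : X.dual x ∈ low X a := by
  obtain ⟨y, hy, _, ⟨z, hz, rfl⟩, rfl⟩ := Submodule.mem_sup.1 hx
  rw [map_add]
  refine Submodule.add_mem _ (Submodule.mem_sup_left (dual_ker X hy))
    (Submodule.mem_sup_right ⟨-X.dual z, Submodule.neg_mem _ (dual_ker X hz), ?_⟩)
  rw [map_neg, X.dual_chern]

theorem layer_dual' {ε : ℤˣ} (hX : LayerRelations X ε) {a : ℕ} (ha : a ≤ n)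
    (v : (layer X hX ha).H) : (layer X hX ha).dual v =
      onLayer X a X.dual (fun _ h => dual_ker X h) (fun _ h => dual_low X h) v := by
  refine (layer X hX ha).ind (P := fun v => (layer X hX ha).dual v =
      onLayer X a X.dual (fun _ h => dual_ker X h) (fun _ h => dual_low X h) v) ?_ ?_ ?_ v
  · rw [map_zero]
    exact (map_zero _).symm
  · intro x y hx hy
    rw [map_add, hx, hy]
    exact (map_add _ _ _).symm
  · intro p q v hv
    rw [(layer X hX ha).dual_apply hv]
    obtain ⟨x, hx, rfl⟩ := (mem_layerPiece X _).1 hv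
    have h1 : onLayer X a X.dual (fun _ h => dual_ker X h) (fun _ h => dual_low X h)
        (Submodule.Quotient.mk x) = Submodule.Quotient.mk ⟨X.dual x.1, dual_ker X x.2⟩ := rfl
    rw [h1]
    have h2 : (⟨X.dual x.1, dual_ker X x.2⟩ : ker X (a + 1)) = Complex.I ^ (p + q) • x :=
      Subtype.ext (X.dual_apply hx)
    rw [h2]
    rfl

theorem layer_dual {ε : ℤˣ} (hX : LayerRelations X ε) {a : ℕ} (ha : a ≤ n) (x : ker X (a + 1)) :
    (layer X hX ha).dual (Submodule.Quotient.mk x : Layer X a) =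
      (Submodule.Quotient.mk ⟨X.dual x.1, dual_ker X x.2⟩ : Layer X a) :=
  layer_dual' hX ha _

theorem expChern_of_zero (Z : Twisted n) (h : Z.chern = 0) (t : ℂ) (x : Z.H) :
    Z.expChern t x = x := by
  rw [Z.expChern_eq, Finset.sum_eq_single 0]
  · simp
  · intro k _ hk
    rw [h, zero_pow hk, LinearMap.zero_apply, smul_zero]
  · intro h
    exact absurd (mem_range.2 (Nat.succ_pos _)) h

theorem layer_mukai {ε : ℤˣ} (hX : LayerRelations X ε) {a : ℕ} (ha : a ≤ n)
    (x y : ker X (a + 1)) :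
    (layer X hX ha).mukai (Submodule.Quotient.mk x : Layer X a)
      (Submodule.Quotient.mk y : Layer X a) =
      ((ε : ℤ) : ℂ) ^ a * X.form ((X.chern ^ a) (X.dual x.1)) y.1 := by
  have h1 := expChern_of_zero (layer X hX ha) rfl (1 / 2)
    ((layer X hX ha).dual (Submodule.Quotient.mk x : Layer X a))
  have h2 := layer_dual hX ha x
  change (layer X hX ha).form ((layer X hX ha).expChern (1 / 2)
    ((layer X hX ha).dual (Submodule.Quotient.mk x : Layer X a)))
    (Submodule.Quotient.mk y : Layer X a) = _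
  rw [h1, h2]
  rfl

/-- The columns of the layers. -/
def layerColumn (Y : Twisted n) (a p q : ℕ) : Submodule ℂ (Layer Y a) :=
  ⨆ (c : ℕ) (d : ℕ) (_ : c + q = d + p), layerPiece Y a c d

theorem map_layerColumn (Φ : Transform X Y) {a p q : ℕ} {v : Layer X a}
    (hv : v ∈ layerPiece X a p q) : layerEquiv Φ a v ∈ layerColumn Y a p q := by
  obtain ⟨x, hx, rfl⟩ := (mem_layerPiece X _).1 hv
  have h1 : Φ.map x.1 ∈ Y.column p q := Φ.map_mem hx
  rw [← sum_layerProj Y a (layerEquiv Φ a (Submodule.Quotient.mk x))]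
  refine Submodule.sum_mem _ fun p' _ => Submodule.sum_mem _ fun q' _ => ?_
  by_cases h : p' + q = q' + p
  · refine Submodule.mem_iSup_of_mem p' (Submodule.mem_iSup_of_mem q'
      (Submodule.mem_iSup_of_mem h ?_))
    exact layerProj_mem Y a p' q' _
  · have h3 : layerProj Y a p' q' (layerEquiv Φ a (Submodule.Quotient.mk x)) = 0 := by
      refine (mk_zero_iff Y _).2 ?_
      change proj Y p' q' (Φ.map x.1) ∈ low Y a
      rw [proj_column h h1]
      exact Submodule.zero_mem _
    rw [h3]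
    exact Submodule.zero_mem _

/-- The transform induces a transform of the layers. -/
noncomputable def layerTransform {ε : ℤˣ} (hX : LayerRelations X ε) (hY : LayerRelations Y ε)
    (Φ : Transform X Y) {a : ℕ} (ha : a ≤ n) :
    Transform (layer X hX ha) (layer Y hY ha) where
  map := layerEquiv Φ a
  map_mem := fun hv => map_layerColumn Φ hv
  map_mukai := by
    intro v w
    obtain ⟨x, rfl⟩ := Submodule.mkQ_surjective _ v
    obtain ⟨y, rfl⟩ := Submodule.mkQ_surjective _ w
    have h1 := layer_mukai hX ha x y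
    have h2 := layer_mukai hY ha (kerEquiv Φ (a + 1) x) (kerEquiv Φ (a + 1) y)
    refine h2.trans (Eq.trans ?_ h1.symm)
    rw [kerEquiv_coe, kerEquiv_coe]
    congr 1
    rw [Y.chern_pow_form, X.chern_pow_form, ← map_chern_pow, Φ.map_form']

end Pool.Agent.Y111.DI
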